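import Pool.Agent.Lib.MP_fe8cb7_co.FT.Stm
set_option autoImplicit false
open Finset
namespace FT
open DH

section LS

variable {V : Type} [Fintype V] [DecidableEq V]

private noncomputable def Ld (G : SimpleGraph V) (W : Finset V → ℝ) (x y : V) : ℝ :=
  ∑ z ∈ cn G x y, W {x, y, z}

private noncomputable def Ob (G : SimpleGraph V) (W : Finset V → ℝ) : ℝ :=
  ∑ x, ∑ y, am G x y * (Ld G W x y - 1) ^ 2

private lemma am01 (G : SimpleGraph V) (x y : V) : am G x y = 0 ∨ am G x y = 1 := by
  unfold am
  split_ifs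
  · right; rfl
  · left; rfl

private lemma am_nonneg (G : SimpleGraph V) (x y : V) : 0 ≤ am G x y := by
  rcases am01 G x y with h | h <;> rw [h] <;> norm_num

private lemma am_symm (G : SimpleGraph V) (x y : V) : am G x y = am G y x := by
  unfold am
  by_cases h : G.Adj x y
  · rw [if_pos h, if_pos h.symm]
  · rw [if_neg h, if_neg (fun h' => h h'.symm)]

private lemma am_adj {G : SimpleGraph V} {x y : V} (h : G.Adj x y) : am G x y = 1 := by
  unfold am
  rw [if_pos h]

private lemma am_nadj {G : SimpleGraph V} {x y : V} (h : ¬ G.Adj x y) : am G x y = 0 := by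
  unfold am
  rw [if_neg h]

private lemma mem_cn' {G : SimpleGraph V} {x y z : V} :
    z ∈ cn G x y ↔ G.Adj x z ∧ G.Adj y z := by
  simp [cn, nb]

private lemma cn_symm' (G : SimpleGraph V) (x y : V) : cn G x y = cn G y x := by
  ext z
  rw [mem_cn', mem_cn', and_comm]

private lemma sum_cn (G : SimpleGraph V) (x y : V) (g : V → ℝ) :
    ∑ z ∈ cn G x y, g z = ∑ z, am G x z * am G y z * g z := by
  rw [← Finset.sum_subset (Finset.subset_univ (cn G x y))]
  · refine Finset.sum_congr rfl fun z hz => ?_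
    rw [mem_cn'] at hz
    rw [am_adj hz.1, am_adj hz.2]
    ring
  · intro z _ hz
    rw [mem_cn'] at hz
    by_cases h : G.Adj x z
    · rw [am_nadj (fun h' => hz ⟨h, h'⟩)]
      ring
    · rw [am_nadj h]
      ring

private lemma Ld_symm (G : SimpleGraph V) (W : Finset V → ℝ) (x y : V) :
    Ld G W x y = Ld G W y x := by
  unfold Ld
  rw [cn_symm' G x y]
  refine Finset.sum_congr rfl fun z _ => ?_
  rw [Finset.insert_comm]

private lemma Ld_nonneg (G : SimpleGraph V) (W : Finset V → ℝ) (hW : ∀ t, 0 ≤ W t) (x y : V) :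
    0 ≤ Ld G W x y := Finset.sum_nonneg fun _ _ => hW _

private lemma foc (G : SimpleGraph V) (K : ℝ) (W : Finset V → ℝ) (h0 : ∀ t, 0 ≤ W t)
    (h1 : ∀ t, W t ≤ K)
    (hmin : ∀ W' : Finset V → ℝ, (∀ t, 0 ≤ W' t) → (∀ t, W' t ≤ K) → Ob G W ≤ Ob G W')
    (W' : Finset V → ℝ) (h0' : ∀ t, 0 ≤ W' t) (h1' : ∀ t, W' t ≤ K) :
    0 ≤ ∑ x, ∑ y, am G x y * (Ld G W x y - 1) * (Ld G W' x y - Ld G W x y) := by
  set A : ℝ := ∑ x, ∑ y, am G x y * (Ld G W x y - 1) * (Ld G W' x y - Ld G W x y) with hA
  set B : ℝ := ∑ x, ∑ y, am G x y * (Ld G W' x y - Ld G W x y) ^ 2 with hB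
  have hB0 : 0 ≤ B := Finset.sum_nonneg fun x _ => Finset.sum_nonneg fun y _ =>
    mul_nonneg (am_nonneg G x y) (sq_nonneg _)
  have key : ∀ t : ℝ, Ob G (fun s => W s + t * (W' s - W s)) = Ob G W + 2 * t * A + t ^ 2 * B := by
    intro t
    have e : ∀ x y, Ld G (fun s => W s + t * (W' s - W s)) x y
        = Ld G W x y + t * (Ld G W' x y - Ld G W x y) := by
      intro x y
      simp only [Ld, Finset.sum_add_distrib, ← Finset.mul_sum, Finset.sum_sub_distrib]
    unfold Ob
    simp only [e]
    rw [hA, hB, Finset.mul_sum, Finset.mul_sum, ← Finset.sum_add_distrib, ← Finset.sum_add_distrib]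
    refine Finset.sum_congr rfl fun x _ => ?_
    rw [Finset.mul_sum, Finset.mul_sum, ← Finset.sum_add_distrib, ← Finset.sum_add_distrib]
    refine Finset.sum_congr rfl fun y _ => ?_
    ring
  by_contra hneg
  push Not at hneg
  -- t = min 1 (-A/(B+1))
  set t : ℝ := min 1 (-A / (B + 1)) with ht
  have hpos : 0 < t := by
    rw [ht]
    refine lt_min one_pos (div_pos (by linarith) (by linarith))
  have ht1 : t ≤ 1 := min_le_left _ _
  have ht2 : t * (B + 1) ≤ -A := by
    have : t ≤ -A / (B + 1) := min_le_right _ _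
    rwa [le_div_iff₀ (by linarith)] at this
  have hm := hmin (fun s => W s + t * (W' s - W s)) (by
      intro s
      have := h0 s
      have h2 := h0' s
      have e : W s + t * (W' s - W s) = (1 - t) * W s + t * W' s := by ring
      show 0 ≤ W s + t * (W' s - W s)
      rw [e]
      exact add_nonneg (mul_nonneg (by linarith) this) (mul_nonneg hpos.le h2)) (by
      intro s
      have := h1 s
      have h2 := h1' s
      show W s + t * (W' s - W s) ≤ K
      nlinarith [mul_nonneg hpos.le (sub_nonneg.mpr h2),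
        mul_nonneg (sub_nonneg.mpr ht1) (sub_nonneg.mpr this)])
  rw [key t] at hm
  have h3 : 0 ≤ t * (2 * A + t * B) := by nlinarith
  have h4 : 0 ≤ 2 * A + t * B := by
    by_contra h5
    push Not at h5
    have := mul_neg_of_pos_of_neg hpos h5
    linarith
  nlinarith

private lemma rot3 (F : V → V → V → ℝ) :
    ∑ x, ∑ y, ∑ z, F y z x = ∑ x, ∑ y, ∑ z, F x y z := by
  rw [Finset.sum_comm]
  refine Finset.sum_congr rfl fun y _ => ?_
  rw [Finset.sum_comm]

private lemma swp23 (F : V → V → V → ℝ) :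
    ∑ x, ∑ y, ∑ z, F x z y = ∑ x, ∑ y, ∑ z, F x y z := by
  refine Finset.sum_congr rfl fun y _ => ?_
  rw [Finset.sum_comm]

private lemma trip1 (x y z : V) : ({y, z, x} : Finset V) = {x, y, z} := by
  ext w; simp only [Finset.mem_insert, Finset.mem_singleton]; tauto

private lemma trip2 (x y z : V) : ({x, z, y} : Finset V) = {x, y, z} := by
  ext w; simp only [Finset.mem_insert, Finset.mem_singleton]; tauto

private lemma Fs_eq (f : V → V → ℝ) (hf : ∀ x y, f x y = f y x) (hd : ∀ x, f x x = 0)
    (x y z : V) (hxy : x ≠ y) (hyz : y ≠ z) (hxz : x ≠ z) :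
    ∑ a ∈ ({x, y, z} : Finset V), ∑ b ∈ ({x, y, z} : Finset V), f a b
      = 2 * (f x y + f y z + f x z) := by
  have h1 : x ∉ ({y, z} : Finset V) := by simp [hxy, hxz]
  have h2 : y ∉ ({z} : Finset V) := by simp [hyz]
  simp only [Finset.sum_insert h1, Finset.sum_insert h2, Finset.sum_singleton]
  rw [hd x, hd y, hd z, hf y x, hf z x, hf z y]
  ring

private lemma tri_sign (G : SimpleGraph V) (K : ℝ) (W : Finset V → ℝ) (h0 : ∀ t, 0 ≤ W t)
    (h1 : ∀ t, W t ≤ K)
    (hmin : ∀ W' : Finset V → ℝ, (∀ t, 0 ≤ W' t) → (∀ t, W' t ≤ K) → Ob G W ≤ Ob G W')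
    (x y z : V) (hxy : G.Adj x y) (hyz : G.Adj y z) (hxz : G.Adj x z)
    (hlt : W {x, y, z} < K) :
    0 ≤ am G x y * (Ld G W x y - 1) + am G y z * (Ld G W y z - 1)
      + am G x z * (Ld G W x z - 1) := by
  set T : Finset V := {x, y, z} with hT
  set f : V → V → ℝ := fun a b => am G a b * (Ld G W a b - 1) with hf
  have fsym : ∀ a b, f a b = f b a := by
    intro a b
    simp only [hf]
    rw [am_symm G a b, Ld_symm G W a b]
  have fd : ∀ a, f a a = 0 := by
    intro a
    simp only [hf]
    rw [am_nadj (G.loopless.irrefl a)]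
    ring
  have hfoc := foc G K W h0 h1 hmin (Function.update W T K) (by
      intro t
      by_cases ht : t = T
      · rw [ht, Function.update_self]
        exact le_trans (h0 T) (h1 T)
      · rw [Function.update_of_ne ht]
        exact h0 t) (by
      intro t
      by_cases ht : t = T
      · rw [ht, Function.update_self]
      · rw [Function.update_of_ne ht]
        exact h1 t)
  set D : V → V → V → ℝ := fun a b c => if ({a, b, c} : Finset V) = T then 1 else 0 with hD
  have hLd : ∀ a b, Ld G (Function.update W T K) a b - Ld G W a b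
      = (K - W T) * ∑ c, am G a c * am G b c * D a b c := by
    intro a b
    unfold Ld
    rw [← Finset.sum_sub_distrib, sum_cn, Finset.mul_sum]
    refine Finset.sum_congr rfl fun c _ => ?_
    simp only [hD]
    by_cases ht : ({a, b, c} : Finset V) = T
    · rw [ht, Function.update_self, if_pos rfl]
      ring
    · rw [Function.update_of_ne ht, if_neg ht]
      ring
  simp only [hLd] at hfoc
  set τ : V → V → V → ℝ := fun a b c => am G a b * am G b c * am G a c * D a b c with hτ
  have e1 : ∑ a, ∑ b, am G a b * (Ld G W a b - 1) *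
      ((K - W T) * ∑ c, am G a c * am G b c * D a b c)
      = (K - W T) * ∑ a, ∑ b, ∑ c, τ a b c * f a b := by
    rw [Finset.mul_sum]
    refine Finset.sum_congr rfl fun a _ => ?_
    rw [Finset.mul_sum]
    refine Finset.sum_congr rfl fun b _ => ?_
    rw [Finset.mul_sum, Finset.mul_sum, Finset.mul_sum]
    refine Finset.sum_congr rfl fun c _ => ?_
    simp only [hτ, hf]
    rcases am01 G a b with h | h <;> rw [h] <;> ring
  rw [e1] at hfoc
  have hS : 0 ≤ ∑ a, ∑ b, ∑ c, τ a b c * f a b := by
    by_contra hneg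
    push Not at hneg
    have := mul_neg_of_pos_of_neg (sub_pos.mpr hlt) hneg
    linarith
  have τrot : ∀ a b c, τ b c a = τ a b c := by
    intro a b c
    simp only [hτ, hD]
    rw [trip1 a b c, am_symm G c a, am_symm G b a]
    ring
  have τsw : ∀ a b c, τ a c b = τ a b c := by
    intro a b c
    simp only [hτ, hD]
    rw [trip2 a b c, am_symm G c b]
    ring
  have e2 : ∑ a, ∑ b, ∑ c, τ a b c * f b c = ∑ a, ∑ b, ∑ c, τ a b c * f a b := by
    rw [← rot3 (fun a b c => τ a b c * f a b)]
    refine Finset.sum_congr rfl fun a _ => Finset.sum_congr rfl fun b _ =>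
      Finset.sum_congr rfl fun c _ => ?_
    rw [τrot a b c]
  have e3 : ∑ a, ∑ b, ∑ c, τ a b c * f a c = ∑ a, ∑ b, ∑ c, τ a b c * f a b := by
    rw [← swp23 (fun a b c => τ a b c * f a b)]
    refine Finset.sum_congr rfl fun a _ => Finset.sum_congr rfl fun b _ =>
      Finset.sum_congr rfl fun c _ => ?_
    rw [τsw a b c]
  have e4 : ∑ a, ∑ b, ∑ c, τ a b c * (f a b + f b c + f a c)
      = 3 * ∑ a, ∑ b, ∑ c, τ a b c * f a b := by
    simp only [mul_add, Finset.sum_add_distrib]
    rw [e2, e3]
    ring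
  have e5 : ∀ a b c, τ a b c * (f a b + f b c + f a c)
      = τ a b c * (f x y + f y z + f x z) := by
    intro a b c
    by_cases hz : τ a b c = 0
    · rw [hz]; ring
    · congr 1
      have hab : G.Adj a b := by
        by_contra h
        apply hz
        simp only [hτ]
        rw [am_nadj h]; ring
      have hbc : G.Adj b c := by
        by_contra h
        apply hz
        simp only [hτ]
        rw [am_nadj h]; ring
      have hac : G.Adj a c := by
        by_contra h
        apply hz
        simp only [hτ]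
        rw [am_nadj h]; ring
      have hTe : ({a, b, c} : Finset V) = T := by
        by_contra h
        apply hz
        simp only [hτ, hD]
        rw [if_neg h]; ring
      have g1 := Fs_eq f fsym fd a b c hab.ne hbc.ne hac.ne
      have g2 := Fs_eq f fsym fd x y z hxy.ne hyz.ne hxz.ne
      rw [hTe, hT] at g1
      linarith
  have e6 : (∑ a, ∑ b, ∑ c, τ a b c) * (f x y + f y z + f x z)
      = 3 * ∑ a, ∑ b, ∑ c, τ a b c * f a b := by
    rw [← e4]
    simp only [e5, Finset.sum_mul]
  have τ0 : ∀ a b c, 0 ≤ τ a b c := by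
    intro a b c
    simp only [hτ, hD]
    refine mul_nonneg (mul_nonneg (mul_nonneg (am_nonneg _ _ _) (am_nonneg _ _ _))
      (am_nonneg _ _ _)) ?_
    split_ifs <;> norm_num
  have hN : 0 < ∑ a, ∑ b, ∑ c, τ a b c := by
    have h1 : τ x y z ≤ ∑ c, τ x y c := Finset.single_le_sum (f := fun c => τ x y c)
      (fun c _ => τ0 x y c) (Finset.mem_univ z)
    have h2 : ∑ c, τ x y c ≤ ∑ b, ∑ c, τ x b c :=
      Finset.single_le_sum (f := fun b => ∑ c, τ x b c)
      (fun b _ => Finset.sum_nonneg fun c _ => τ0 x b c) (Finset.mem_univ y)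
    have h3 : ∑ b, ∑ c, τ x b c ≤ ∑ a, ∑ b, ∑ c, τ a b c :=
      Finset.single_le_sum (f := fun a => ∑ b, ∑ c, τ a b c)
      (fun a _ => Finset.sum_nonneg fun b _ => Finset.sum_nonneg fun c _ => τ0 a b c)
      (Finset.mem_univ x)
    have h4 : τ x y z = 1 := by
      simp only [hτ, hD]
      rw [am_adj hxy, am_adj hyz, am_adj hxz, if_pos rfl]
      ring
    linarith
  show 0 ≤ f x y + f y z + f x z
  by_contra hneg
  push Not at hneg
  have := mul_neg_of_pos_of_neg hN hneg
  linarith

end LS

theorem p_LS : S_LS := by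
  intro V _ _ G K hK
  have hcomp : IsCompact (Set.pi Set.univ (fun _ : Finset V => Set.Icc (0 : ℝ) K)) :=
    isCompact_univ_pi (fun _ => isCompact_Icc)
  have hne : (Set.pi Set.univ (fun _ : Finset V => Set.Icc (0 : ℝ) K)).Nonempty :=
    ⟨fun _ => 0, fun _ _ => ⟨le_rfl, hK.le⟩⟩
  have hcont : Continuous (fun W : Finset V → ℝ => Ob G W) := by
    unfold Ob Ld
    fun_prop
  obtain ⟨W, hW, hmin'⟩ := hcomp.exists_isMinOn hne hcont.continuousOn
  have h0 : ∀ t, 0 ≤ W t := fun t => (hW t (Set.mem_univ t)).1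
  have h1 : ∀ t, W t ≤ K := fun t => (hW t (Set.mem_univ t)).2
  have hmin : ∀ W' : Finset V → ℝ, (∀ t, 0 ≤ W' t) → (∀ t, W' t ≤ K) → Ob G W ≤ Ob G W' :=
    fun W' a b => hmin' (fun t _ => ⟨a t, b t⟩)
  refine ⟨W, fun x y => am G x y * (Ld G W x y - 1), h0, h1, ?_, ?_, ?_, ?_⟩
  · intro x y
    show am G x y * (Ld G W x y - 1) = am G y x * (Ld G W y x - 1)
    rw [am_symm G x y, Ld_symm G W x y]
  · intro x y hxy
    show Ld G W x y = 1 + am G x y * (Ld G W x y - 1)
    rw [am_adj hxy]
    ring
  · intro x y hxy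
    set bad : Finset V := (cn G x y).filter (fun z => am G x y * (Ld G W x y - 1)
      + am G y z * (Ld G W y z - 1) + am G x z * (Ld G W x z - 1) < 0) with hbad
    by_cases hb : bad = ∅
    · rw [hb]
      simp
    · obtain ⟨z, hz⟩ := Finset.nonempty_iff_ne_empty.mpr hb
      have hz' := Finset.mem_filter.mp hz
      have hzc := mem_cn'.mp hz'.1
      have h2 := hz'.2
      rw [am_adj hxy, am_adj hzc.1, am_adj hzc.2] at h2
      have h3 := Ld_nonneg G W h0 y z
      have h4 := Ld_nonneg G W h0 x z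
      have h5 : Ld G W x y ≤ 3 := by linarith
      have h6 : (bad.card : ℝ) * K ≤ Ld G W x y := by
        have h7 : ∑ z ∈ bad, W {x, y, z} ≤ Ld G W x y :=
          Finset.sum_le_sum_of_subset_of_nonneg (Finset.filter_subset _ _)
            (fun z _ _ => h0 _)
        have h8 : ∑ z ∈ bad, W {x, y, z} = (bad.card : ℝ) * K := by
          rw [← nsmul_eq_mul, ← Finset.sum_const]
          refine Finset.sum_congr rfl fun w hw => ?_
          have hw' := Finset.mem_filter.mp hw
          have hwc := mem_cn'.mp hw'.1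
          by_contra hne2
          have hlt : W {x, y, w} < K := lt_of_le_of_ne (h1 _) hne2
          have := tri_sign G K W h0 h1 hmin x y w hxy hwc.2 hwc.1 hlt
          linarith [hw'.2]
        linarith
      exact le_trans h6 h5
  · have hfoc := foc G K W h0 h1 hmin (fun _ => 0) (fun _ => le_rfl) (fun _ => hK.le)
    have e : ∀ x y, Ld G (fun _ => (0 : ℝ)) x y = 0 := by
      intro x y
      simp [Ld]
    simp only [e] at hfoc
    rw [← sub_nonneg]
    have e2 : - ∑ x, ∑ y, (am G x y * (Ld G W x y - 1)) ^ 2 * am G x y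
        - ∑ x, ∑ y, am G x y * (Ld G W x y - 1) * am G x y
        = ∑ x, ∑ y, am G x y * (Ld G W x y - 1) * (0 - Ld G W x y) := by
      rw [← Finset.sum_neg_distrib, ← Finset.sum_sub_distrib]
      refine Finset.sum_congr rfl fun x _ => ?_
      rw [← Finset.sum_neg_distrib, ← Finset.sum_sub_distrib]
      refine Finset.sum_congr rfl fun y _ => ?_
      rcases am01 G x y with h | h <;> rw [h] <;> ring
    rw [e2]
    exact hfoc

end FT
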