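import Pool.Agent.Lib.MP_fe8cb7_co.FT.Stm
set_option autoImplicit false
open Finset
namespace FT
open DH

private theorem am_of_adj {V : Type} [Fintype V] [DecidableEq V] (G : SimpleGraph V) {x y : V}
    (h : G.Adj x y) : am G x y = 1 := by
  unfold am; rw [if_pos h]

private theorem am_of_not {V : Type} [Fintype V] [DecidableEq V] (G : SimpleGraph V) {x y : V}
    (h : ¬ G.Adj x y) : am G x y = 0 := by
  unfold am; rw [if_neg h]

private theorem am_symm {V : Type} [Fintype V] [DecidableEq V] (G : SimpleGraph V) (x y : V) :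
    am G x y = am G y x := by
  by_cases h : G.Adj x y
  · rw [am_of_adj G h, am_of_adj G h.symm]
  · rw [am_of_not G h, am_of_not G (fun h' => h h'.symm)]

theorem p_P : S_P := by
  intro hth hmin hvar hnu hload hval V _ _ G 𝓑 h B f hAdm hf hB1 hB2
  obtain ⟨k, hk, hkm⟩ := hmin V G 𝓑 f
  obtain ⟨-, -, -, -, -, ldsymm, ldzero, ldmem⟩ := hnu V G 𝓑 h f k hAdm hf hk
  have hv := hvar V G 𝓑 f k (fun x y => am G x y - ld G f h k x y) hk hkm
    (𝓑.sub_mem hAdm.am_mem ldmem)
    (fun x y => by
      show am G x y - ld G f h k x y = am G y x - ld G f h k y x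
      rw [am_symm G x y, ldsymm x y])
    (fun x y hxy => by
      show am G x y - ld G f h k x y = 0
      rw [am_of_not G hxy, ldzero x y hxy, sub_zero])
    (fun x y hkxy => by
      show 0 ≤ am G x y - ld G f h k x y
      by_cases hxy : G.Adj x y
      · have := hload hth V G 𝓑 h f k hAdm hf hk x y hxy hkxy
        rw [am_of_adj G hxy]; linarith
      · rw [am_of_not G hxy, ldzero x y hxy, sub_zero])
  obtain ⟨v1, v2⟩ := hval hnu V G 𝓑 h B f k hAdm hf hk hB1 hB2
  have e1 : ∑ x, ∑ y, f x y * (am G x y - ld G f h k x y) =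
      ∑ x, ∑ y, f x y * am G x y - ∑ x, ∑ y, f x y * ld G f h k x y := by
    rw [← Finset.sum_sub_distrib]
    refine Finset.sum_congr rfl fun x _ => ?_
    rw [← Finset.sum_sub_distrib]
    refine Finset.sum_congr rfl fun y _ => ?_
    ring
  have e2 : ∑ x, rs k x ^ 3 * rs (fun x y => am G x y - ld G f h k x y) x =
      ∑ x, rs k x ^ 3 * rs (am G) x - ∑ x, rs k x ^ 3 * rs (ld G f h k) x := by
    rw [← Finset.sum_sub_distrib]
    refine Finset.sum_congr rfl fun x _ => ?_
    have : rs (fun x y => am G x y - ld G f h k x y) x = rs (am G) x - rs (ld G f h k) x := by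
      unfold rs
      rw [← Finset.sum_sub_distrib]
    rw [this]; ring
  rw [e1, e2] at hv
  linarith

end FT
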