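import Pool.Agent.Lib.MP_fe8cb7_co.FT.Stm

set_option autoImplicit false

/-! [FT fin]: the abstract fractional theorem from the main inequality and least squares. -/

open Finset
namespace FT
open DH

theorem p_fin : S_fin := by
  intro hth hmin hvar hnu hload hval hP hLS V _ _ G 𝓑 h B K hAdm hK hB hdeg
  obtain ⟨W, f, hW0, hWK, hsymm, hload1, hbad, hsum⟩ := hLS V G K hK
  have h0 : 0 ≤ ∑ x, ∑ y, f x y * am G x y := by
    refine hP hth hmin hvar hnu hload hval V G 𝓑 h B f hAdm hsymm hdeg ?_
    intro x y hxy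
    exact hB _ (hbad x y hxy)
  have ham : ∀ x y, 0 ≤ am G x y := by
    intro x y
    unfold am
    split_ifs <;> norm_num
  have hterm : ∀ x y, 0 ≤ f x y ^ 2 * am G x y := fun x y =>
    mul_nonneg (sq_nonneg _) (ham x y)
  have hle : ∑ x, ∑ y, f x y ^ 2 * am G x y ≤ 0 := by linarith
  have hzero : ∀ x y, f x y ^ 2 * am G x y = 0 := by
    intro x y
    have h1 : f x y ^ 2 * am G x y ≤ ∑ y', f x y' ^ 2 * am G x y' :=
      Finset.single_le_sum (f := fun y' => f x y' ^ 2 * am G x y') (fun y' _ => hterm x y')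
        (Finset.mem_univ y)
    have h2 : ∑ y', f x y' ^ 2 * am G x y' ≤ ∑ x', ∑ y', f x' y' ^ 2 * am G x' y' :=
      Finset.single_le_sum (f := fun x' => ∑ y', f x' y' ^ 2 * am G x' y')
        (fun x' _ => Finset.sum_nonneg fun y' _ => hterm x' y') (Finset.mem_univ x)
    exact le_antisymm (by linarith) (hterm x y)
  refine ⟨W, hW0, hWK, fun x y hxy => ?_⟩
  have hf : f x y = 0 := by
    have h3 := hzero x y
    have h4 : am G x y = 1 := by
      unfold am
      rw [if_pos hxy]
    rw [h4, mul_one] at h3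
    exact pow_eq_zero_iff (two_ne_zero) |>.1 h3
  rw [hload1 x y hxy, hf, add_zero]

end FT
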