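import Pool.Agent.Lib.MP_fe8cb7_co.FT.Stm
set_option autoImplicit false
open Finset
namespace FT
open DH

private lemma part {V : Type} [Fintype V] [DecidableEq V] {G : SimpleGraph V}
    {𝓑 : Submodule ℝ (V → V → ℝ)} {h : ℝ} {k : V → V → ℝ} (hA : Adm G 𝓑 h) (hk : Cone G 𝓑 k)
    {θ : ℝ} (hθ : 0 ≤ θ) {x z : V} (hxz : G.Adj x z)
    (hb : ∀ b : ℝ, 0 ≤ b → 3 * rs k x * (rs k x ^ 2 + b ^ 2)
      ≤ 4 * θ * (rs k x ^ 3 + b ^ 3 + rs k z ^ 3)) :
    ∑ y ∈ cn G x z, wt h k x y z ≤ θ := by
  have hpos := hA.pos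
  have hr : ∀ v, 0 ≤ rs k v := fun v => Finset.sum_nonneg fun y _ => hk.nonneg v y
  have hle : ∀ y, k x y ≤ rs k x := fun y =>
    Finset.single_le_sum (f := fun y => k x y) (fun y _ => hk.nonneg x y) (Finset.mem_univ y)
  rcases (hr x).eq_or_lt with h0 | h0
  · have : ∀ y ∈ cn G x z, wt h k x y z = 0 := by
      intro y _
      have h1 : k x y = 0 := le_antisymm (h0 ▸ hle y) (hk.nonneg x y)
      simp [wt, h1]
    rw [Finset.sum_eq_zero this]
    exact hθ
  · have hstep : ∀ y ∈ cn G x z, wt h k x y z ≤ θ / (h * rs k x) * k x y := by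
      intro y _
      have hS : 0 < rs k x ^ 3 + rs k y ^ 3 + rs k z ^ 3 := by
        have h1 := pow_pos h0 3
        have h2 := pow_nonneg (hr y) 3
        have h3 := pow_nonneg (hr z) 3
        linarith
      unfold wt
      rw [div_le_iff₀ (by positivity)]
      have h1 := hb (rs k y) (hr y)
      have h2 : θ / (h * rs k x) * k x y * (4 * h * (rs k x ^ 3 + rs k y ^ 3 + rs k z ^ 3))
          = k x y * (4 * θ * (rs k x ^ 3 + rs k y ^ 3 + rs k z ^ 3)) / rs k x := by
        field_simp
      rw [h2, le_div_iff₀ h0]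
      have h3 := mul_le_mul_of_nonneg_left h1 (hk.nonneg x y)
      linarith
    calc ∑ y ∈ cn G x z, wt h k x y z ≤ ∑ y ∈ cn G x z, θ / (h * rs k x) * k x y :=
          Finset.sum_le_sum hstep
      _ = θ / (h * rs k x) * ∑ y ∈ cn G x z, k x y := by rw [Finset.mul_sum]
      _ ≤ θ / (h * rs k x) * (h * rs k x) :=
          mul_le_mul_of_nonneg_left (hA.third k hk.mem hk.nonneg hk.symm hk.supp x z hxz)
            (by positivity)
      _ = θ := by field_simp

theorem p_load : S_load := by
  intro hth V _ _ G 𝓑 h f k hA hf hk x z hxz h0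
  have hr : ∀ v, 0 ≤ rs k v := fun v => Finset.sum_nonneg fun y _ => hk.nonneg v y
  obtain ⟨θ, hθ0, hθ1, h1, h2⟩ := hth (rs k x) (rs k z) (hr x) (hr z)
  have hp := hA.pos
  have hw : ∀ a b c, 0 ≤ wt h k a b c := by
    intro a b c
    unfold wt
    have h3 := hk.nonneg a b
    have h4 := hr a
    have h5 := hr b
    have h6 := hr c
    positivity
  have hc : ∀ a b : V, cn G a b = cn G b a := by
    intro a b
    ext y
    simp [cn, nb, and_comm]
  have e1 := part hA hk hθ0 hxz h1
  have e2 := part hA hk (sub_nonneg.mpr hθ1) hxz.symm (fun b hb => by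
    have := h2 b hb
    linarith)
  rw [hc z x] at e2
  have hterm : ∀ y, nu G f h k x z y
      ≤ if y ∈ cn G x z then wt h k x y z + wt h k z y x else 0 := by
    intro y
    have e0 : wt h k x z y = 0 := by simp [wt, h0]
    unfold nu
    rw [e0]
    unfold gd
    by_cases hy : y ∈ cn G x z
    · rw [if_pos hy]
      split_ifs
      · linarith
      · have := hw x y z
        have := hw z y x
        linarith
    · rw [if_neg hy, if_neg]
      · simp
      · rintro ⟨_, h3, h4, _⟩
        apply hy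
        simp only [cn, nb, Finset.mem_inter, Finset.mem_filter, Finset.mem_univ, true_and]
        exact ⟨h4, h3⟩
  calc ld G f h k x z ≤ ∑ y, (if y ∈ cn G x z then wt h k x y z + wt h k z y x else 0) :=
        Finset.sum_le_sum fun y _ => hterm y
    _ = ∑ y ∈ cn G x z, (wt h k x y z + wt h k z y x) := by
        rw [← Finset.sum_filter]
        congr 1
        ext y
        simp
    _ = ∑ y ∈ cn G x z, wt h k x y z + ∑ y ∈ cn G x z, wt h k z y x := Finset.sum_add_distrib
    _ ≤ θ + (1 - θ) := add_le_add e1 e2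
    _ = 1 := by ring

end FT
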