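import Pool.Agent.Lib.MP_fe8cb7_co.FT.Stm

set_option autoImplicit false

/-! Piece `[FT min]`: the minimum of the functional over the cone exists. -/

open Finset

namespace FT

open DH

private theorem quart (D t : ℝ) (hD : 0 ≤ D) (ht : 0 ≤ t) : -(D * (1 + D)) ≤ t ^ 4 - D * t := by
  rcases le_or_gt t (1 + D) with h | h
  · have : D * t ≤ D * (1 + D) := mul_le_mul_of_nonneg_left h hD
    have : 0 ≤ t ^ 4 := by positivity
    linarith
  · have h3 : D ≤ t ^ 3 := by
      have : (1 + D) ^ 3 ≤ t ^ 3 := pow_le_pow_left₀ (by linarith) h.le 3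
      nlinarith [sq_nonneg D, pow_nonneg hD 3]
    have : D * t ≤ t ^ 4 := by nlinarith
    have : 0 ≤ D * (1 + D) := by positivity
    linarith

private theorem quart_big (D t R : ℝ) (hD : 0 ≤ D) (hR : 0 ≤ R) (ht : 2 * (1 + D) + R ≤ t) :
    R ≤ t ^ 4 - D * t := by
  have ht2 : 2 * (1 + D) ≤ t := by linarith
  have h3 : 1 + D ≤ t ^ 3 := by
    have : (2 * (1 + D)) ^ 3 ≤ t ^ 3 := pow_le_pow_left₀ (by linarith) ht2 3
    nlinarith [sq_nonneg D, pow_nonneg hD 3]
  have ht0 : 0 ≤ t := by linarith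
  have : t ≤ t ^ 4 - D * t := by nlinarith
  linarith

section

variable {V : Type} [Fintype V] [DecidableEq V]

private theorem cone_closed (G : SimpleGraph V) (𝓑 : Submodule ℝ (V → V → ℝ)) :
    IsClosed {k : V → V → ℝ | Cone G 𝓑 k} := by
  have h0 : IsClosed (𝓑 : Set (V → V → ℝ)) := Submodule.closed_of_finiteDimensional 𝓑
  have h1 : IsClosed {k : V → V → ℝ | ∀ x y, 0 ≤ k x y} := by
    simp only [Set.setOf_forall]
    exact isClosed_iInter fun x => isClosed_iInter fun y =>
      isClosed_le continuous_const (by fun_prop)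
  have h2 : IsClosed {k : V → V → ℝ | ∀ x y, k x y = k y x} := by
    simp only [Set.setOf_forall]
    exact isClosed_iInter fun x => isClosed_iInter fun y =>
      isClosed_eq (by fun_prop) (by fun_prop)
  have h3 : IsClosed {k : V → V → ℝ | ∀ x y, ¬ G.Adj x y → k x y = 0} := by
    simp only [Set.setOf_forall]
    exact isClosed_iInter fun x => isClosed_iInter fun y => isClosed_iInter fun _ =>
      isClosed_eq (by fun_prop) continuous_const
  have : {k : V → V → ℝ | Cone G 𝓑 k} = (𝓑 : Set (V → V → ℝ)) ∩ ({k | ∀ x y, 0 ≤ k x y} ∩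
      ({k | ∀ x y, k x y = k y x} ∩ {k | ∀ x y, ¬ G.Adj x y → k x y = 0})) := by
    ext k
    constructor
    · intro h
      exact ⟨h.mem, h.nonneg, h.symm, h.supp⟩
    · rintro ⟨a, b, c, d⟩
      exact ⟨a, b, c, d⟩
  rw [this]
  exact h0.inter (h1.inter (h2.inter h3))

private theorem continuous_Fn (f : V → V → ℝ) : Continuous (Fn f) := by
  unfold Fn rs
  fun_prop

end

theorem p_min : S_min := by
  intro V _ _ G 𝓑 f
  obtain ⟨C, hC0, hC⟩ : ∃ C : ℝ, 0 ≤ C ∧ ∀ x y, |f x y| ≤ C := by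
    refine ⟨∑ x, ∑ y, |f x y|, sum_nonneg fun x _ => sum_nonneg fun y _ => abs_nonneg _, ?_⟩
    intro x y
    calc |f x y| ≤ ∑ y, |f x y| :=
          single_le_sum (f := fun y => |f x y|) (fun y _ => abs_nonneg _) (mem_univ y)
      _ ≤ _ := single_le_sum (f := fun x => ∑ y, |f x y|)
          (fun x _ => sum_nonneg fun y _ => abs_nonneg _) (mem_univ x)
  set N : ℝ := (Fintype.card V : ℝ) with hN
  have hN0 : 0 ≤ N := Nat.cast_nonneg _
  set D : ℝ := 4 * C with hD
  have hD0 : 0 ≤ D := by positivity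
  set R : ℝ := 2 * (1 + D) + N * (D * (1 + D)) with hR
  have hND : 0 ≤ N * (D * (1 + D)) := by positivity
  have hR0 : 0 ≤ R := by positivity
  -- lower bound of the functional
  have lower : ∀ k, Cone G 𝓑 k → ∑ x, (rs k x ^ 4 - D * rs k x) ≤ Fn f k := by
    intro k hk
    unfold Fn
    rw [sum_sub_distrib, ← mul_sum]
    have : -(C * ∑ x, rs k x) ≤ ∑ x, ∑ y, f x y * k x y := by
      rw [mul_sum, ← sum_neg_distrib]
      refine sum_le_sum fun x _ => ?_
      unfold rs
      rw [mul_sum, ← sum_neg_distrib]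
      refine sum_le_sum fun y _ => ?_
      have := (abs_le.mp (hC x y)).1
      have hk0 := hk.nonneg x y
      nlinarith
    rw [hD]
    linarith
  -- the compact part
  set B : Set (V → V → ℝ) := {k | Cone G 𝓑 k} ∩ Set.Icc (fun _ _ => 0) (fun _ _ => R) with hB
  have hBc : IsCompact B := isCompact_Icc.inter_left (cone_closed G 𝓑)
  have h0c : Cone G 𝓑 (fun _ _ => 0 : V → V → ℝ) :=
    ⟨𝓑.zero_mem, fun _ _ => le_rfl, fun _ _ => rfl, fun _ _ _ => rfl⟩
  have h0 : (fun _ _ => 0 : V → V → ℝ) ∈ B := by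
    refine ⟨h0c, le_rfl, ?_⟩
    intro x y; exact hR0
  obtain ⟨k, hkB, hkmin⟩ := hBc.exists_isMinOn ⟨_, h0⟩ (continuous_Fn f).continuousOn
  have hkmin' : ∀ k' ∈ B, Fn f k ≤ Fn f k' := fun k' hk' => hkmin hk'
  have F0 : Fn f (fun _ _ => 0 : V → V → ℝ) = 0 := by
    unfold Fn rs; simp
  refine ⟨k, hkB.1, fun k' hk' => ?_⟩
  by_cases hin : ∀ x y, k' x y ≤ R
  · exact hkmin' k' ⟨hk', fun x y => hk'.nonneg x y, fun x y => hin x y⟩
  · push Not at hin
    obtain ⟨x₀, y₀, hxy⟩ := hin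
    have hle0 : Fn f k ≤ 0 := by
      have := hkmin' _ h0
      rwa [F0] at this
    refine hle0.trans ?_
    refine le_trans ?_ (lower k' hk')
    have hux : R ≤ rs k' x₀ :=
      hxy.le.trans (single_le_sum (f := fun y => k' x₀ y) (fun y _ => hk'.nonneg x₀ y)
        (mem_univ y₀))
    have hbig := quart_big D (rs k' x₀) (N * (D * (1 + D))) hD0 hND (by rw [← hR]; exact hux)
    rw [← Finset.add_sum_erase univ _ (mem_univ x₀)]
    have hrest : -(N * (D * (1 + D))) ≤
        ∑ x ∈ univ.erase x₀, (rs k' x ^ 4 - D * rs k' x) := by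
      have h1 : ∑ x ∈ univ.erase x₀, (-(D * (1 + D))) ≤
          ∑ x ∈ univ.erase x₀, (rs k' x ^ 4 - D * rs k' x) :=
        sum_le_sum fun x _ => quart D _ hD0 (sum_nonneg fun y _ => hk'.nonneg x y)
      rw [sum_const, nsmul_eq_mul] at h1
      have hcard : ((univ.erase x₀).card : ℝ) ≤ N := by
        rw [hN, Nat.cast_le]
        exact (card_le_univ _)
      have h2 : 0 ≤ D * (1 + D) := by positivity
      nlinarith
    linarith

end FT
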