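import Pool.Agent.Lib.MP_fe8cb7_co.FT.Stm

/-! # Fractional triangle decompositions: the non-partite theorem (piece [FT non]) -/

set_option autoImplicit false
open Finset
namespace FT
open DH

private lemma rs_am_eq {V : Type} [Fintype V] [DecidableEq V] (G : SimpleGraph V) (x : V) :
    rs (am G) x = (dg G x univ : ℝ) := by
  classical
  unfold rs am dg nb
  rw [Finset.sum_boole]

private lemma cn_card_ge {V : Type} [Fintype V] [DecidableEq V] (G : SimpleGraph V) (x y : V) :
    (dg G x univ : ℝ) + (dg G y univ : ℝ) - (Fintype.card V : ℝ) ≤ ((cn G x y).card : ℝ) := by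
  have h1 := Finset.card_union_add_card_inter (nb G x univ) (nb G y univ)
  have h2 : (nb G x univ ∪ nb G y univ).card ≤ Fintype.card V := Finset.card_le_univ _
  have h3 : dg G x univ + dg G y univ ≤ (cn G x y).card + Fintype.card V := by
    unfold dg cn
    omega
  have h4 : (dg G x univ : ℝ) + (dg G y univ : ℝ) ≤ ((cn G x y).card : ℝ) + (Fintype.card V : ℝ) := by
    exact_mod_cast h3
  linarith

theorem p_non : S_non := by
  intro hF V _ _ G hdeg
  have hA : Adm G (⊤ : Submodule ℝ (V → V → ℝ)) 1 := by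
    refine ⟨one_pos, Submodule.mem_top, fun _ _ _ _ _ _ => Submodule.mem_top, ?_⟩
    intro k _ hk0 _ _ x z _
    rw [one_mul]
    unfold rs
    exact Finset.sum_le_sum_of_subset_of_nonneg (Finset.subset_univ _) (fun y _ _ => hk0 x y)
  obtain ⟨W, hW0, _, hW2⟩ := hF V G ⊤ 1 0 4 hA (by norm_num) (by
    intro n hn
    have h1 : (n : ℝ) < 1 := by linarith
    have h2 : n < 1 := by exact_mod_cast h1
    have h3 : n = 0 := by omega
    simp [h3]) (by
    intro x y _
    rw [rs_am_eq]
    have h1 := cn_card_ge G x y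
    have h2 : (3 : ℝ) * (Fintype.card V : ℝ) ≤ 4 * (dg G x univ : ℝ) := by exact_mod_cast hdeg x
    have h3 : (3 : ℝ) * (Fintype.card V : ℝ) ≤ 4 * (dg G y univ : ℝ) := by exact_mod_cast hdeg y
    linarith)
  exact ⟨W, hW0, hW2⟩

end FT
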