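import Pool.Agent.Lib.MP_fe8cb7_co.FT.Stm
set_option autoImplicit false
open Finset
namespace FT
open DH

section sums

variable {V : Type} [Fintype V] [DecidableEq V]

private lemma n_s1 (g : V → V → V → ℝ) (x y : V) :
    ∑ a, ∑ b, ∑ c, g a b c * (if x = a ∧ y = b then (1 : ℝ) else 0) = ∑ c, g x y c := by
  rw [Finset.sum_eq_single x, Finset.sum_eq_single y]
  · simp
  · intro b _ hb
    apply Finset.sum_eq_zero
    intro c _
    rw [if_neg (fun h => hb h.2.symm), mul_zero]
  · intro h; exact absurd (Finset.mem_univ _) h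
  · intro a _ ha
    apply Finset.sum_eq_zero; intro b _
    apply Finset.sum_eq_zero; intro c _
    rw [if_neg (fun h => ha h.1.symm), mul_zero]
  · intro h; exact absurd (Finset.mem_univ _) h

private lemma n_s2 (g : V → V → V → ℝ) (x y : V) :
    ∑ a, ∑ b, ∑ c, g a b c * (if x = b ∧ y = a then (1 : ℝ) else 0) = ∑ c, g y x c := by
  rw [← n_s1 g y x]
  refine Finset.sum_congr rfl fun a _ => Finset.sum_congr rfl fun b _ =>
    Finset.sum_congr rfl fun c _ => ?_
  congr 1
  exact if_congr and_comm rfl rfl

private lemma n_s3 (g : V → V → V → ℝ) (x y : V) :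
    ∑ a, ∑ b, ∑ c, g a b c * (if x = b ∧ y = c then (1 : ℝ) else 0) = ∑ a, g a x y := by
  refine Finset.sum_congr rfl fun a _ => ?_
  rw [Finset.sum_eq_single x, Finset.sum_eq_single y]
  · simp
  · intro c _ hc
    rw [if_neg (fun h => hc h.2.symm), mul_zero]
  · intro h; exact absurd (Finset.mem_univ _) h
  · intro b _ hb
    apply Finset.sum_eq_zero; intro c _
    rw [if_neg (fun h => hb h.1.symm), mul_zero]
  · intro h; exact absurd (Finset.mem_univ _) h

private lemma n_s4 (g : V → V → V → ℝ) (x y : V) :
    ∑ a, ∑ b, ∑ c, g a b c * (if x = c ∧ y = b then (1 : ℝ) else 0) = ∑ a, g a y x := by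
  rw [← n_s3 g y x]
  refine Finset.sum_congr rfl fun a _ => Finset.sum_congr rfl fun b _ =>
    Finset.sum_congr rfl fun c _ => ?_
  congr 1
  exact if_congr and_comm rfl rfl

private lemma n_s5 (g : V → V → V → ℝ) (x y : V) :
    ∑ a, ∑ b, ∑ c, g a b c * (if x = a ∧ y = c then (1 : ℝ) else 0) = ∑ b, g x b y := by
  rw [Finset.sum_eq_single x]
  · refine Finset.sum_congr rfl fun b _ => ?_
    rw [Finset.sum_eq_single y]
    · simp
    · intro c _ hc
      rw [if_neg (fun h => hc h.2.symm), mul_zero]
    · intro h; exact absurd (Finset.mem_univ _) h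
  · intro a _ ha
    apply Finset.sum_eq_zero; intro b _
    apply Finset.sum_eq_zero; intro c _
    rw [if_neg (fun h => ha h.1.symm), mul_zero]
  · intro h; exact absurd (Finset.mem_univ _) h

private lemma n_s6 (g : V → V → V → ℝ) (x y : V) :
    ∑ a, ∑ b, ∑ c, g a b c * (if x = c ∧ y = a then (1 : ℝ) else 0) = ∑ b, g y b x := by
  rw [← n_s5 g y x]
  refine Finset.sum_congr rfl fun a _ => Finset.sum_congr rfl fun b _ =>
    Finset.sum_congr rfl fun c _ => ?_
  congr 1
  exact if_congr and_comm rfl rfl

end sums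

theorem p_nu : S_nu := by
  classical
  intro V _ _ G 𝓑 h f k hA hf hk
  have hrs : ∀ x, 0 ≤ rs k x := fun x => Finset.sum_nonneg fun y _ => hk.nonneg x y
  have hwt0 : ∀ x y z, 0 ≤ wt h k x y z := by
    intro x y z
    unfold wt
    have h1 := hrs x
    have h2 := hrs y
    have h3 := hrs z
    have h4 := hA.pos
    apply div_nonneg
    · exact mul_nonneg (hk.nonneg x y) (by positivity)
    · positivity
  have hgd0 : ∀ x y z, 0 ≤ gd G f x y z := by
    intro x y z
    unfold gd
    split_ifs <;> norm_num
  have hwts : ∀ x y z, wt h k x y z = wt h k y x z := by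
    intro x y z
    unfold wt
    rw [hk.symm x y, add_comm (rs k x ^ 2), add_comm (rs k x ^ 3)]
  have hgd1 : ∀ x y z, gd G f x y z = gd G f y x z := by
    intro x y z
    unfold gd
    apply if_congr _ rfl rfl
    rw [G.adj_comm x y, hf x y]
    constructor
    · rintro ⟨h1, h2, h3, h4⟩
      exact ⟨h1, h3, h2, by linarith⟩
    · rintro ⟨h1, h2, h3, h4⟩
      exact ⟨h1, h3, h2, by linarith⟩
  have hgd2 : ∀ x y z, gd G f x y z = gd G f y z x := by
    intro x y z
    unfold gd
    apply if_congr _ rfl rfl
    rw [G.adj_comm x y, G.adj_comm x z, hf x y, hf x z]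
    constructor
    · rintro ⟨h1, h2, h3, h4⟩
      exact ⟨h2, h3, h1, by linarith⟩
    · rintro ⟨h1, h2, h3, h4⟩
      exact ⟨h3, h1, h2, by linarith⟩
  have hnu0 : ∀ x y z, 0 ≤ nu G f h k x y z := by
    intro x y z
    unfold nu
    exact mul_nonneg (hgd0 x y z)
      (add_nonneg (add_nonneg (hwt0 x y z) (hwt0 y z x)) (hwt0 x z y))
  have hnu1 : ∀ x y z, nu G f h k x y z = nu G f h k y x z := by
    intro x y z
    unfold nu
    rw [hgd1 x y z, hwts x y z]
    ring
  have hnu2 : ∀ x y z, nu G f h k x y z = nu G f h k y z x := by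
    intro x y z
    unfold nu
    rw [hgd2 x y z, hwts x y z, hwts x z y]
    ring
  have hnuA : ∀ x y z, nu G f h k x y z ≠ 0 →
      G.Adj x y ∧ G.Adj y z ∧ G.Adj x z ∧ 0 ≤ f x y + f y z + f x z := by
    intro x y z hne
    by_contra hcon
    apply hne
    unfold nu gd
    rw [if_neg hcon, zero_mul]
  have hld1 : ∀ x y, ld G f h k x y = ld G f h k y x := by
    intro x y
    unfold ld
    exact Finset.sum_congr rfl fun z _ => hnu1 x y z
  refine ⟨hnu0, hnu1, hnu2, fun x y z hne => (hnuA x y z hne).2.2.2,
    fun x y => Finset.sum_nonneg fun z _ => hnu0 x y z, hld1, ?_, ?_⟩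
  · intro x y hxy
    unfold ld
    apply Finset.sum_eq_zero
    intro z _
    by_contra hne
    exact hxy (hnuA x y z hne).1
  · have key : ld G f h k = (1 / 6 : ℝ) • ∑ a, ∑ b, ∑ c, nu G f h k a b c • tm a b c := by
      funext x y
      have e1 : (∑ a, ∑ b, ∑ c, nu G f h k a b c • tm a b c) x y =
          ∑ a, ∑ b, ∑ c, nu G f h k a b c * tm a b c x y := by
        simp only [Finset.sum_apply, Pi.smul_apply, smul_eq_mul]
      have e2 : ∑ a, ∑ b, ∑ c, nu G f h k a b c * tm a b c x y = 6 * ld G f h k x y := by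
        have hsp : ∀ a b c, nu G f h k a b c * tm a b c x y =
            nu G f h k a b c * (if x = a ∧ y = b then (1 : ℝ) else 0) +
            nu G f h k a b c * (if x = b ∧ y = a then (1 : ℝ) else 0) +
            nu G f h k a b c * (if x = b ∧ y = c then (1 : ℝ) else 0) +
            nu G f h k a b c * (if x = c ∧ y = b then (1 : ℝ) else 0) +
            nu G f h k a b c * (if x = a ∧ y = c then (1 : ℝ) else 0) +
            nu G f h k a b c * (if x = c ∧ y = a then (1 : ℝ) else 0) := by
          intro a b c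
          unfold tm em
          ring
        simp only [hsp, Finset.sum_add_distrib]
        rw [n_s1, n_s2, n_s3, n_s4, n_s5, n_s6]
        have f1 : ∑ c, nu G f h k x y c = ld G f h k x y := rfl
        have f2 : ∑ c, nu G f h k y x c = ld G f h k x y := by
          rw [hld1 x y]; rfl
        have f3 : ∑ a, nu G f h k a x y = ld G f h k x y := by
          rw [← f1]
          exact Finset.sum_congr rfl fun a _ => hnu2 a x y
        have f4 : ∑ a, nu G f h k a y x = ld G f h k x y := by
          rw [← f2]
          exact Finset.sum_congr rfl fun a _ => hnu2 a y x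
        have f5 : ∑ b, nu G f h k x b y = ld G f h k x y := by
          rw [← f2]
          exact Finset.sum_congr rfl fun b _ => by rw [hnu2 x b y, hnu2 b y x]
        have f6 : ∑ b, nu G f h k y b x = ld G f h k x y := by
          rw [← f1]
          exact Finset.sum_congr rfl fun b _ => by rw [hnu2 y b x, hnu2 b x y]
        rw [f1, f2, f3, f4, f5, f6]
        ring
      rw [Pi.smul_apply, Pi.smul_apply, e1, e2, smul_eq_mul]
      ring
    rw [key]
    apply Submodule.smul_mem
    apply Submodule.sum_mem
    intro a _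
    apply Submodule.sum_mem
    intro b _
    apply Submodule.sum_mem
    intro c _
    by_cases hne : nu G f h k a b c = 0
    · rw [hne, zero_smul]
      exact Submodule.zero_mem _
    · obtain ⟨h1, h2, h3, _⟩ := hnuA a b c hne
      exact Submodule.smul_mem _ _ (hA.tm_mem a b c h1 h2 h3)

end FT
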