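import Pool.Agent.Lib.MP_fe8cb7_co.FT.Stm
import Pool.Agent.Lib.MP_fe8cb7_co.h25.Basic

/-! # Fractional triangle decompositions: the tripartite theorem below 1/4 (piece [FT tri]) -/

set_option autoImplicit false
open Finset
namespace FT
open DH

section aux

variable {V : Type} [Fintype V] [DecidableEq V]

/-- the balanced matrices -/
private def BB (π : V → ZMod 3) : Submodule ℝ (V → V → ℝ) where
  carrier := {k | ∀ v, ∑ y ∈ pt π univ (π v + 1), k v y = ∑ y ∈ pt π univ (π v - 1), k v y}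
  zero_mem' := by
    intro v
    simp
  add_mem' := by
    intro a b ha hb v
    have h1 := ha v
    have h2 := hb v
    simp only [Pi.add_apply, Finset.sum_add_distrib]
    linarith
  smul_mem' := by
    intro c a ha v
    have h1 := ha v
    simp only [Pi.smul_apply, smul_eq_mul, ← Finset.mul_sum]
    rw [h1]

private lemma mem_BB {π : V → ZMod 3} {k : V → V → ℝ} : k ∈ BB π ↔
    ∀ v, ∑ y ∈ pt π univ (π v + 1), k v y = ∑ y ∈ pt π univ (π v - 1), k v y := Iff.rfl

private lemma sum_am (G : SimpleGraph V) (v : V) (S : Finset V) :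
    ∑ y ∈ S, am G v y = (dg G v S : ℝ) := by
  classical
  unfold am dg nb
  rw [Finset.sum_boole]

private lemma sum_em (π : V → ZMod 3) (a b v : V) (i : ZMod 3) :
    ∑ y ∈ pt π univ i, em a b v y =
      (if v = a ∧ π b = i then 1 else 0) + (if v = b ∧ π a = i then 1 else 0) := by
  unfold em
  rw [Finset.sum_add_distrib]
  congr 1
  · by_cases hv : v = a
    · simp [hv, pt, Finset.sum_ite_eq', Finset.sum_ite_eq]
    · simp [hv]
  · by_cases hv : v = b
    · simp [hv, pt, Finset.sum_ite_eq', Finset.sum_ite_eq]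
    · simp [hv]

private lemma z3 : ∀ i j k : ZMod 3, i ≠ j → j ≠ k → i ≠ k →
    (j = i + 1 ∧ k = i - 1 ∧ ¬ (k = i + 1) ∧ ¬ (j = i - 1)) ∨
    (k = i + 1 ∧ j = i - 1 ∧ ¬ (j = i + 1) ∧ ¬ (k = i - 1)) := by decide

private lemma z3' {i j k : ZMod 3} (h1 : i ≠ j) (h2 : j ≠ k) (h3 : i ≠ k) :
    ((if j = i + 1 then 1 else 0) + (if k = i + 1 then 1 else 0) : ℝ) =
      (if j = i - 1 then 1 else 0) + (if k = i - 1 then 1 else 0) := by
  rcases z3 i j k h1 h2 h3 with ⟨a, b, c, d⟩ | ⟨a, b, c, d⟩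
  · rw [if_pos a, if_neg c, if_neg d, if_pos b]; norm_num
  · rw [if_pos a, if_neg c, if_neg d, if_pos b]; norm_num

private lemma tm_mem_BB {π : V → ZMod 3} {G : SimpleGraph V} (hT : Tri π G) (a b c : V)
    (hab : G.Adj a b) (hbc : G.Adj b c) (hac : G.Adj a c) : tm a b c ∈ BB π := by
  rw [mem_BB]
  intro v
  have e : ∀ i, ∑ y ∈ pt π univ i, tm a b c v y =
      ∑ y ∈ pt π univ i, em a b v y + ∑ y ∈ pt π univ i, em b c v y +
        ∑ y ∈ pt π univ i, em a c v y := by
    intro i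
    unfold tm
    rw [Finset.sum_add_distrib, Finset.sum_add_distrib]
  rw [e, e]
  simp only [sum_em]
  have h1 := hT _ _ hab
  have h2 := hT _ _ hbc
  have h3 := hT _ _ hac
  have n1 : a ≠ b := hab.ne
  have n2 : b ≠ c := hbc.ne
  have n3 : a ≠ c := hac.ne
  by_cases va : v = a
  · subst va
    have := z3' h1 h2 h3
    simp only [true_and, n1, n3, false_and, if_false, add_zero, zero_add]
    linarith
  · by_cases vb : v = b
    · subst vb
      have := z3' h1.symm h3 h2
      simp only [true_and, va, n2, false_and, if_false, add_zero, zero_add]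
      linarith
    · by_cases vc : v = c
      · subst vc
        have := z3' h3.symm h1 h2.symm
        simp only [true_and, va, vb, false_and, if_false, add_zero, zero_add]
        linarith
      · simp [va, vb, vc]

/-- the third part -/
private lemma third_part {π : V → ZMod 3} {G : SimpleGraph V} (hT : Tri π G) {x z : V}
    (hxz : G.Adj x z) : ∃ j : ZMod 3, (j = π x + 1 ∨ j = π x - 1) ∧ j ≠ π x ∧ j ≠ π z ∧
      cn G x z ⊆ pt π univ j := by
  have h := hT _ _ hxz
  have key : ∀ i k : ZMod 3, i ≠ k → ∃ j : ZMod 3, (j = i + 1 ∨ j = i - 1) ∧ j ≠ i ∧ j ≠ k ∧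
      ∀ l : ZMod 3, i ≠ l → k ≠ l → l = j := by decide
  obtain ⟨j, h1, h2, h3, h4⟩ := key _ _ h
  refine ⟨j, h1, h2, h3, ?_⟩
  intro y hy
  rw [cn, mem_inter, mem_nb, mem_nb] at hy
  rw [mem_pt]
  exact ⟨mem_univ _, h4 _ (hT _ _ hy.1.2) (hT _ _ hy.2.2)⟩

private lemma third_BB {π : V → ZMod 3} {G : SimpleGraph V} (hT : Tri π G) (k : V → V → ℝ)
    (hk : k ∈ BB π) (hk0 : ∀ x y, 0 ≤ k x y) (x z : V) (hxz : G.Adj x z) :
    ∑ y ∈ cn G x z, k x y ≤ 1 / 2 * rs k x := by
  obtain ⟨j, hj, _, _, hs⟩ := third_part hT hxz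
  have h1 : ∑ y ∈ cn G x z, k x y ≤ ∑ y ∈ pt π univ j, k x y :=
    Finset.sum_le_sum_of_subset_of_nonneg hs (fun y _ _ => hk0 x y)
  have h2 := mem_BB.1 hk x
  have h3 : ∑ y ∈ pt π univ (π x + 1), k x y + ∑ y ∈ pt π univ (π x - 1), k x y ≤ rs k x := by
    rw [← Finset.sum_union]
    · exact Finset.sum_le_sum_of_subset_of_nonneg (Finset.subset_univ _) (fun y _ _ => hk0 x y)
    · rw [Finset.disjoint_left]
      intro y hy1 hy2
      rw [mem_pt] at hy1 hy2
      exact zmod3_ne3 _ (hy1.2.symm.trans hy2.2)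
  rcases hj with rfl | rfl <;> linarith

private lemma cn_card {π : V → ZMod 3} {G : SimpleGraph V} {N : ℕ} (hE : Eq3 π univ N) {x y : V}
    {j : ZMod 3} (_hs : cn G x y ⊆ pt π univ j) :
    (dg G x (pt π univ j) : ℝ) + (dg G y (pt π univ j) : ℝ) - (N : ℝ) ≤ ((cn G x y).card : ℝ) := by
  have h1 := Finset.card_union_add_card_inter (nb G x (pt π univ j)) (nb G y (pt π univ j))
  have h2 : (nb G x (pt π univ j) ∪ nb G y (pt π univ j)).card ≤ N := by
    rw [← hE j]
    exact Finset.card_le_card (Finset.union_subset (nb_subset x) (nb_subset y))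
  have h3 : (nb G x (pt π univ j) ∩ nb G y (pt π univ j)).card ≤ (cn G x y).card := by
    apply Finset.card_le_card
    intro w hw
    rw [mem_inter, mem_nb, mem_nb] at hw
    rw [cn, mem_inter, mem_nb, mem_nb]
    exact ⟨⟨mem_univ _, hw.1.2⟩, ⟨mem_univ _, hw.2.2⟩⟩
  have h4 : dg G x (pt π univ j) + dg G y (pt π univ j) ≤ (cn G x y).card + N := by
    unfold dg
    omega
  have h5 : (dg G x (pt π univ j) : ℝ) + (dg G y (pt π univ j) : ℝ) ≤
      ((cn G x y).card : ℝ) + (N : ℝ) := by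
    exact_mod_cast h4
  linarith

private lemma rs_am {π : V → ZMod 3} {G : SimpleGraph V} (hT : Tri π G) (hB : Bal π G univ)
    {x : V} {j : ZMod 3} (hj : j = π x + 1 ∨ j = π x - 1) :
    rs (am G) x = 2 * (dg G x (pt π univ j) : ℝ) := by
  have h0 : rs (am G) x = (dg G x univ : ℝ) := sum_am G x univ
  have h1 := dg_two (G := G) (U := univ) hT x
  have h2 := hB x
  unfold imb at h2
  have h3 : dg G x (pt π univ (π x + 1)) = dg G x (pt π univ (π x - 1)) := by omega
  rw [h0, h1]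
  push_cast
  rcases hj with rfl | rfl
  · rw [← h3]; ring
  · rw [h3]; ring

end aux

theorem p_tri : S_tri := by
  intro hF c hc V _ _ π G N hN hE hT hB hdeg
  have hN' : (0 : ℝ) < N := by exact_mod_cast hN
  have hc' : 0 < 1 - 4 * c := by linarith
  have hA : Adm G (BB π) (1 / 2) := by
    refine ⟨by norm_num, ?_, ?_, ?_⟩
    · rw [mem_BB]
      intro v
      rw [sum_am, sum_am]
      have h2 := hB v
      unfold imb at h2
      have h3 : dg G v (pt π univ (π v + 1)) = dg G v (pt π univ (π v - 1)) := by omega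
      rw [h3]
    · intro a b d hab hbd had
      exact tm_mem_BB hT a b d hab hbd had
    · intro k hk hk0 _ _ x z hxz
      exact third_BB hT k hk hk0 x z hxz
  have hK : 0 < 9 / (1 - 4 * c) / (N : ℝ) := by positivity
  refine hF V G (BB π) (1 / 2) ((1 - 4 * c) * N / 3) (9 / (1 - 4 * c) / (N : ℝ)) hA hK ?_ ?_
  · intro n hn
    have h1 : (n : ℝ) * (9 / (1 - 4 * c) / (N : ℝ)) * ((1 - 4 * c) * N) ≤ 3 * ((1 - 4 * c) * N) :=
      mul_le_mul_of_nonneg_right hn (by positivity)
    have h2 : (n : ℝ) * (9 / (1 - 4 * c) / (N : ℝ)) * ((1 - 4 * c) * N) = 9 * n := by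
      field_simp
    rw [h2] at h1
    linarith
  · intro x y hxy
    obtain ⟨j, hj, hjx, hjy, hs⟩ := third_part hT hxy
    have h1 := cn_card hE hs
    have h2 := rs_am hT hB hj
    have h3 := hdeg x j hjx
    have h4 := hdeg y j hjy
    rw [h2]
    linarith

end FT
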