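import Pool.Agent.Lib.MP_fe8cb7_co.FT.Stm

set_option autoImplicit false

open Finset

namespace FT

open DH

section tri0

variable {V : Type} [Fintype V] [DecidableEq V]

/-- the space of balanced matrices -/
private def t0B (π : V → ZMod 3) : Submodule ℝ (V → V → ℝ) where
  carrier := {k | ∀ v, (∑ y, if π y = π v + 1 then k v y else 0)
    = ∑ y, if π y = π v - 1 then k v y else 0}
  add_mem' := by
    intro k l hk hl v
    have h1 := hk v
    have h2 := hl v
    have e : ∀ i : ZMod 3, (∑ y, if π y = i then (k + l) v y else 0)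
        = (∑ y, if π y = i then k v y else 0) + ∑ y, if π y = i then l v y else 0 := by
      intro i
      rw [← Finset.sum_add_distrib]
      refine Finset.sum_congr rfl fun y _ => ?_
      by_cases h : π y = i <;> simp [h]
    rw [e, e, h1, h2]
  zero_mem' := by
    intro v
    simp
  smul_mem' := by
    intro c k hk v
    have h1 := hk v
    have e : ∀ i : ZMod 3, (∑ y, if π y = i then (c • k) v y else 0)
        = c * ∑ y, if π y = i then k v y else 0 := by
      intro i
      rw [Finset.mul_sum]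
      refine Finset.sum_congr rfl fun y _ => ?_
      by_cases h : π y = i <;> simp [h]
    rw [e, e, h1]

private lemma t0_mem (π : V → ZMod 3) (k : V → V → ℝ) :
    k ∈ t0B π ↔ ∀ v, (∑ y, if π y = π v + 1 then k v y else 0)
      = ∑ y, if π y = π v - 1 then k v y else 0 := Iff.rfl

private lemma t0_dg (π : V → ZMod 3) (G : SimpleGraph V) (v : V) (i : ZMod 3) :
    (∑ y, if π y = i then am G v y else 0) = (dg G v (pt π univ i) : ℝ) := by
  classical
  unfold dg nb pt am
  rw [Finset.filter_filter, Finset.card_filter]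
  push_cast
  refine Finset.sum_congr rfl fun y _ => ?_
  by_cases h : π y = i <;> by_cases h' : G.Adj v y <;> simp [h, h']

private lemma t0_em (P : V → Prop) [DecidablePred P] (a b v : V) :
    (∑ y, if P y then em a b v y else 0)
      = (if v = a ∧ P b then 1 else 0) + (if v = b ∧ P a then 1 else 0) := by
  have e : ∀ y, (if P y then em a b v y else 0)
      = (if y = b then (if v = a ∧ P b then (1 : ℝ) else 0) else 0)
        + (if y = a then (if v = b ∧ P a then (1 : ℝ) else 0) else 0) := by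
    intro y
    unfold em
    by_cases h1 : y = b <;> by_cases h2 : y = a
    · subst h1
      subst h2
      by_cases h3 : P y <;> by_cases h4 : v = y <;> simp [h3, h4]
    · subst h1
      by_cases h3 : P y <;> by_cases h4 : v = a <;> simp [h2, h3, h4]
    · subst h2
      by_cases h3 : P y <;> by_cases h4 : v = b <;> simp [h1, h3, h4]
    · simp [h1, h2]
  rw [Finset.sum_congr rfl fun y _ => e y, Finset.sum_add_distrib]
  simp

private lemma t0_tm (P : V → Prop) [DecidablePred P] (a b c v : V) :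
    (∑ y, if P y then tm a b c v y else 0)
      = ((if v = a ∧ P b then 1 else 0) + (if v = b ∧ P a then 1 else 0))
        + ((if v = b ∧ P c then 1 else 0) + (if v = c ∧ P b then 1 else 0))
        + ((if v = a ∧ P c then 1 else 0) + (if v = c ∧ P a then 1 else 0)) := by
  rw [← t0_em, ← t0_em, ← t0_em, ← Finset.sum_add_distrib, ← Finset.sum_add_distrib]
  refine Finset.sum_congr rfl fun y _ => ?_
  unfold tm
  by_cases h : P y <;> simp [h]

private lemma t0_z (i j l : ZMod 3) (h1 : i ≠ j) (h2 : j ≠ l) (h3 : i ≠ l) :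
    (j = i + 1 ∧ l ≠ i + 1 ∧ j ≠ i - 1 ∧ l = i - 1) ∨
      (j ≠ i + 1 ∧ l = i + 1 ∧ j = i - 1 ∧ l ≠ i - 1) := by
  revert i j l
  decide

private lemma t0_tm_mem (π : V → ZMod 3) (a b c : V) (h1 : π a ≠ π b) (h2 : π b ≠ π c)
    (h3 : π a ≠ π c) : tm a b c ∈ t0B π := by
  rw [t0_mem]
  intro v
  have hab : a ≠ b := fun h => h1 (by rw [h])
  have hbc : b ≠ c := fun h => h2 (by rw [h])
  have hac : a ≠ c := fun h => h3 (by rw [h])
  rw [t0_tm (fun y => π y = π v + 1), t0_tm (fun y => π y = π v - 1)]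
  have n1 : π v + 1 ≠ π v - 1 := by
    have : ∀ i : ZMod 3, i + 1 ≠ i - 1 := by decide
    exact this _
  have n2 : π v - 1 ≠ π v + 1 := n1.symm
  by_cases ha : v = a
  · subst ha
    rcases t0_z _ _ _ h1 h2 h3 with ⟨e1, e2, e3, e4⟩ | ⟨e1, e2, e3, e4⟩ <;>
      simp [hab, hac, e1, e4, e2, e3, n1, n2]
  · by_cases hb : v = b
    · subst hb
      rcases t0_z _ _ _ h1.symm h3 h2 with ⟨e1, e2, e3, e4⟩ | ⟨e1, e2, e3, e4⟩ <;>
        simp [hab.symm, hbc, e1, e4, e2, e3, n1, n2]
    · by_cases hc : v = c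
      · subst hc
        rcases t0_z _ _ _ h3.symm h1 h2.symm with ⟨e1, e2, e3, e4⟩ | ⟨e1, e2, e3, e4⟩ <;>
          simp [hac.symm, hbc.symm, e1, e4, e2, e3, n1, n2]
      · simp [ha, hb, hc]

private lemma t0_third (π : V → ZMod 3) (k : V → V → ℝ) (hk : k ∈ t0B π)
    (h0 : ∀ x y, 0 ≤ k x y) (x : V) (S : Finset V) (j : ZMod 3) (hj : j ≠ π x)
    (hS : ∀ y ∈ S, π y = j) : ∑ y ∈ S, k x y ≤ 1 / 2 * rs k x := by
  have hb := (t0_mem π k).1 hk x
  have h1 : ∑ y ∈ S, k x y ≤ ∑ y, if π y = j then k x y else 0 := by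
    rw [← Finset.sum_filter]
    refine Finset.sum_le_sum_of_subset_of_nonneg ?_ fun y _ _ => h0 x y
    intro y hy
    simp [hS y hy]
  have h2 : (∑ y, if π y = π x + 1 then k x y else 0) + (∑ y, if π y = π x - 1 then k x y else 0)
      ≤ rs k x := by
    rw [← Finset.sum_add_distrib]
    unfold rs
    refine Finset.sum_le_sum fun y _ => ?_
    have hne : ∀ i : ZMod 3, i + 1 ≠ i - 1 := by decide
    by_cases h : π y = π x + 1
    · have h' : π y ≠ π x - 1 := by
        rw [h]
        exact hne _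
      rw [if_pos h, if_neg h', add_zero]
    · rw [if_neg h, zero_add]
      split_ifs
      · exact le_refl _
      · exact h0 x y
  have h3 : j = π x + 1 ∨ j = π x - 1 := by
    have : ∀ i j : ZMod 3, j ≠ i → j = i + 1 ∨ j = i - 1 := by decide
    exact this _ _ hj
  rcases h3 with h3 | h3
  · rw [h3] at h1
    linarith
  · rw [h3] at h1
    linarith

private lemma t0_cn (π : V → ZMod 3) (G : SimpleGraph V) (hT : Tri π G) (x z : V)
    (hxz : G.Adj x z) : ∃ j : ZMod 3, j ≠ π x ∧ j ≠ π z ∧ ∀ y ∈ cn G x z, π y = j := by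
  have hne := hT x z hxz
  have key : ∀ i l : ZMod 3, i ≠ l → ∃ j, j ≠ i ∧ j ≠ l ∧ ∀ m : ZMod 3, i ≠ m → l ≠ m → m = j := by
    decide
  obtain ⟨j, hj1, hj2, hj3⟩ := key _ _ hne
  refine ⟨j, hj1, hj2, fun y hy => ?_⟩
  unfold cn nb at hy
  simp only [Finset.mem_inter, Finset.mem_filter, Finset.mem_univ, true_and] at hy
  exact hj3 _ (hT _ _ hy.1) (hT _ _ hy.2)

private lemma t0_adm (π : V → ZMod 3) (G : SimpleGraph V) (hT : Tri π G) (hB : Bal π G univ) :
    Adm G (t0B π) (1 / 2) := by
  refine ⟨by norm_num, ?_, ?_, ?_⟩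
  · rw [t0_mem]
    intro v
    rw [t0_dg, t0_dg]
    have h := hB v
    unfold imb at h
    have h' : (dg G v (pt π univ (π v + 1)) : ℤ) = (dg G v (pt π univ (π v - 1)) : ℤ) := by
      linarith
    exact_mod_cast h'
  · intro a b c h1 h2 h3
    exact t0_tm_mem π a b c (hT _ _ h1) (hT _ _ h2) (hT _ _ h3)
  · intro k hk h0 _ _ x z hxz
    obtain ⟨j, hj1, -, hj3⟩ := t0_cn π G hT x z hxz
    exact t0_third π k hk h0 x _ j hj1 hj3

private lemma t0_rs (π : V → ZMod 3) (G : SimpleGraph V) (hT : Tri π G) (hB : Bal π G univ)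
    (x : V) (j : ZMod 3) (hj : j ≠ π x) :
    rs (am G) x = 2 * (dg G x (pt π univ j) : ℝ) := by
  have hb : (dg G x (pt π univ (π x + 1)) : ℝ) = (dg G x (pt π univ (π x - 1)) : ℝ) := by
    have h := hB x
    unfold imb at h
    have h' : (dg G x (pt π univ (π x + 1)) : ℤ) = (dg G x (pt π univ (π x - 1)) : ℤ) := by
      linarith
    exact_mod_cast h'
  have h1 : rs (am G) x = (dg G x (pt π univ (π x + 1)) : ℝ) + (dg G x (pt π univ (π x - 1)) : ℝ) := by
    rw [← t0_dg, ← t0_dg, ← Finset.sum_add_distrib]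
    unfold rs
    refine Finset.sum_congr rfl fun y _ => ?_
    by_cases hxy : G.Adj x y
    · have hne := hT x y hxy
      have key : ∀ i m : ZMod 3, i ≠ m → (m = i + 1 ∧ m ≠ i - 1) ∨ (m ≠ i + 1 ∧ m = i - 1) := by
        decide
      rcases key _ _ hne with ⟨e1, e2⟩ | ⟨e1, e2⟩
      · rw [if_pos e1, if_neg e2, add_zero]
      · rw [if_neg e1, if_pos e2, zero_add]
    · have : am G x y = 0 := by
        unfold am
        rw [if_neg hxy]
      rw [this]
      simp
  have h3 : j = π x + 1 ∨ j = π x - 1 := by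
    have : ∀ i j : ZMod 3, j ≠ i → j = i + 1 ∨ j = i - 1 := by decide
    exact this _ _ hj
  rcases h3 with h3 | h3
  · rw [h1, h3, ← hb]
    ring
  · rw [h1, h3, hb]
    ring

private lemma t0_card (π : V → ZMod 3) (G : SimpleGraph V) (N : ℕ) (hE : Eq3 π univ N)
    (x y : V) (j : ZMod 3) :
    (dg G x (pt π univ j) : ℝ) + dg G y (pt π univ j) ≤ (cn G x y).card + N := by
  classical
  have h1 : (nb G x (pt π univ j) ∪ nb G y (pt π univ j)).card
      + (nb G x (pt π univ j) ∩ nb G y (pt π univ j)).card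
      = dg G x (pt π univ j) + dg G y (pt π univ j) := Finset.card_union_add_card_inter _ _
  have h2 : (nb G x (pt π univ j) ∪ nb G y (pt π univ j)).card ≤ N := by
    rw [← hE j]
    refine Finset.card_le_card (Finset.union_subset ?_ ?_)
    · unfold nb
      exact Finset.filter_subset _ _
    · unfold nb
      exact Finset.filter_subset _ _
  have h3 : (nb G x (pt π univ j) ∩ nb G y (pt π univ j)).card ≤ (cn G x y).card := by
    refine Finset.card_le_card ?_
    unfold cn
    refine Finset.inter_subset_inter ?_ ?_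
    · unfold nb
      exact Finset.filter_subset_filter _ (Finset.subset_univ _)
    · unfold nb
      exact Finset.filter_subset_filter _ (Finset.subset_univ _)
  have h4 : dg G x (pt π univ j) + dg G y (pt π univ j) ≤ (cn G x y).card + N := by omega
  exact_mod_cast h4

end tri0

theorem p_tri0 : S_tri0 := by
  intro hF V _ _ π G N _ hE hT hB hd
  have hA := t0_adm π G hT hB
  obtain ⟨W, hW1, -, hW3⟩ := hF V G (t0B π) (1 / 2) 0 4 hA (by norm_num) (by
    intro n hn
    have : n < 1 := by
      have h : (n : ℝ) < 1 := by linarith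
      exact_mod_cast h
    have h0 : n = 0 := by omega
    rw [h0]
    norm_num) (by
    intro x y hxy
    obtain ⟨j, hj1, hj2, -⟩ := t0_cn π G hT x y hxy
    rw [t0_rs π G hT hB x j hj1]
    have h1 := t0_card π G N hE x y j
    have h2 : 3 * (N : ℝ) ≤ 4 * (dg G x (pt π univ j) : ℝ) := by exact_mod_cast hd x j hj1
    have h3 : 3 * (N : ℝ) ≤ 4 * (dg G y (pt π univ j) : ℝ) := by exact_mod_cast hd y j hj2
    linarith)
  exact ⟨W, hW1, hW3⟩

end FT
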