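import Pool.Agent.Lib.MP_fe8cb7_co.FT.Stm
set_option autoImplicit false
open Finset
namespace FT
open DH

private lemma rot3 {V : Type} [Fintype V] (F : V → V → V → ℝ) :
    ∑ x, ∑ y, ∑ z, F y z x = ∑ x, ∑ y, ∑ z, F x y z := by
  rw [Finset.sum_comm]
  refine Finset.sum_congr rfl fun y _ => ?_
  rw [Finset.sum_comm]

private lemma swap3 {V : Type} [Fintype V] (F : V → V → V → ℝ) :
    ∑ x, ∑ y, ∑ z, F y x z = ∑ x, ∑ y, ∑ z, F x y z := by
  rw [Finset.sum_comm]

private lemma swp23 {V : Type} [Fintype V] (F : V → V → V → ℝ) :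
    ∑ x, ∑ y, ∑ z, F x z y = ∑ x, ∑ y, ∑ z, F x y z := by
  refine Finset.sum_congr rfl fun y _ => ?_
  rw [Finset.sum_comm]

private lemma gd_rot {V : Type} (G : SimpleGraph V) (f : V → V → ℝ) (hf : ∀ x y, f x y = f y x)
    (x y z : V) : gd G f y z x = gd G f x y z := by
  unfold gd
  have e : (G.Adj y z ∧ G.Adj z x ∧ G.Adj y x ∧ 0 ≤ f y z + f z x + f y x) ↔
      (G.Adj x y ∧ G.Adj y z ∧ G.Adj x z ∧ 0 ≤ f x y + f y z + f x z) := by
    rw [G.adj_comm z x, G.adj_comm y x, hf z x, hf y x]
    constructor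
    · rintro ⟨h1, h2, h3, h4⟩
      exact ⟨h3, h1, h2, by linarith⟩
    · rintro ⟨h1, h2, h3, h4⟩
      exact ⟨h2, h3, h1, by linarith⟩
  by_cases hc : G.Adj x y ∧ G.Adj y z ∧ G.Adj x z ∧ 0 ≤ f x y + f y z + f x z
  · rw [if_pos hc, if_pos (e.mpr hc)]
  · rw [if_neg hc, if_neg (fun h => hc (e.mp h))]

private lemma gd_sw {V : Type} (G : SimpleGraph V) (f : V → V → ℝ) (hf : ∀ x y, f x y = f y x)
    (x y z : V) : gd G f y x z = gd G f x y z := by
  unfold gd
  have e : (G.Adj y x ∧ G.Adj x z ∧ G.Adj y z ∧ 0 ≤ f y x + f x z + f y z) ↔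
      (G.Adj x y ∧ G.Adj y z ∧ G.Adj x z ∧ 0 ≤ f x y + f y z + f x z) := by
    rw [G.adj_comm y x, hf y x]
    constructor
    · rintro ⟨h1, h2, h3, h4⟩
      exact ⟨h1, h3, h2, by linarith⟩
    · rintro ⟨h1, h2, h3, h4⟩
      exact ⟨h1, h3, h2, by linarith⟩
  by_cases hc : G.Adj x y ∧ G.Adj y z ∧ G.Adj x z ∧ 0 ≤ f x y + f y z + f x z
  · rw [if_pos hc, if_pos (e.mpr hc)]
  · rw [if_neg hc, if_neg (fun h => hc (e.mp h))]

private lemma gd_nonneg {V : Type} (G : SimpleGraph V) (f : V → V → ℝ) (x y z : V) :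
    0 ≤ gd G f x y z := by
  unfold gd
  split_ifs <;> norm_num

private lemma good_count {V : Type} [Fintype V] [DecidableEq V] (G : SimpleGraph V)
    (f : V → V → ℝ) (x y : V) (hxy : G.Adj x y) :
    ((cn G x y).card : ℝ) - (((cn G x y).filter (fun z => f x y + f y z + f x z < 0)).card : ℝ)
      ≤ ∑ z, gd G f x y z := by
  have h1 : ∑ z ∈ cn G x y, gd G f x y z ≤ ∑ z, gd G f x y z :=
    Finset.sum_le_sum_of_subset_of_nonneg (Finset.subset_univ _)
      (fun z _ _ => gd_nonneg G f x y z)
  refine le_trans ?_ h1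
  rw [Finset.card_filter, Finset.card_eq_sum_ones]
  push_cast
  rw [← Finset.sum_sub_distrib]
  refine Finset.sum_le_sum fun z hz => ?_
  have hz2 : G.Adj x z ∧ G.Adj y z := by
    simpa [cn, nb] using hz
  unfold gd
  by_cases h : f x y + f y z + f x z < 0
  · rw [if_pos h]
    split_ifs <;> norm_num
  · rw [if_neg h, if_pos ⟨hxy, hz2.2, hz2.1, not_lt.mp h⟩]
    norm_num

theorem p_val : S_val := by
  intro hnu V _ _ G 𝓑 h B f k hA hf hk hcn hbad
  obtain ⟨n0, nsw, nrot, nne, l0, lsymm, lsupp, lmem⟩ := hnu V G 𝓑 h f k hA hf hk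
  have hp := hA.pos
  have hr : ∀ v, 0 ≤ rs k v := fun v => Finset.sum_nonneg fun y _ => hk.nonneg v y
  constructor
  · -- part 1
    have e1 : ∑ x, ∑ y, f x y * ld G f h k x y = ∑ x, ∑ y, ∑ z, f x y * nu G f h k x y z := by
      refine Finset.sum_congr rfl fun x _ => Finset.sum_congr rfl fun y _ => ?_
      rw [ld, Finset.mul_sum]
    have e2 : ∑ x, ∑ y, ∑ z, f y z * nu G f h k x y z
        = ∑ x, ∑ y, ∑ z, f x y * nu G f h k x y z := by
      rw [← rot3 (fun x y z => f x y * nu G f h k x y z)]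
      refine Finset.sum_congr rfl fun x _ => Finset.sum_congr rfl fun y _ =>
        Finset.sum_congr rfl fun z _ => ?_
      rw [nrot x y z]
    have e3 : ∑ x, ∑ y, ∑ z, f x z * nu G f h k x y z
        = ∑ x, ∑ y, ∑ z, f x y * nu G f h k x y z := by
      rw [← swp23 (fun x y z => f x y * nu G f h k x y z)]
      refine Finset.sum_congr rfl fun x _ => Finset.sum_congr rfl fun y _ =>
        Finset.sum_congr rfl fun z _ => ?_
      rw [nrot x y z, nsw y z x, nrot z y x, nrot y x z]
    have e4 : 0 ≤ ∑ x, ∑ y, ∑ z, (f x y * nu G f h k x y z + f y z * nu G f h k x y z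
        + f x z * nu G f h k x y z) := by
      refine Finset.sum_nonneg fun x _ => Finset.sum_nonneg fun y _ =>
        Finset.sum_nonneg fun z _ => ?_
      by_cases hz : nu G f h k x y z = 0
      · rw [hz]; simp
      · have h1 := mul_nonneg (nne x y z hz) (n0 x y z)
        linarith
    simp only [Finset.sum_add_distrib] at e4
    rw [e2, e3] at e4
    rw [e1]
    linarith
  · -- part 2
    set s : V → ℝ := rs k with hs
    set Q : V → V → V → ℝ := fun x y z => s x ^ 3 + s y ^ 3 + s z ^ 3 with hQ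
    have e1 : ∑ x, s x ^ 3 * rs (ld G f h k) x
        = ∑ x, ∑ y, ∑ z, s x ^ 3 * nu G f h k x y z := by
      refine Finset.sum_congr rfl fun x _ => ?_
      simp only [rs, ld, Finset.mul_sum]
    have e2 : ∑ x, ∑ y, ∑ z, s y ^ 3 * nu G f h k x y z
        = ∑ x, ∑ y, ∑ z, s x ^ 3 * nu G f h k x y z := by
      rw [← rot3 (fun x y z => s x ^ 3 * nu G f h k x y z)]
      refine Finset.sum_congr rfl fun x _ => Finset.sum_congr rfl fun y _ =>
        Finset.sum_congr rfl fun z _ => ?_
      rw [nrot x y z]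
    have e3 : ∑ x, ∑ y, ∑ z, s z ^ 3 * nu G f h k x y z
        = ∑ x, ∑ y, ∑ z, s x ^ 3 * nu G f h k x y z := by
      rw [← e2, ← rot3 (fun x y z => s y ^ 3 * nu G f h k x y z)]
      refine Finset.sum_congr rfl fun x _ => Finset.sum_congr rfl fun y _ =>
        Finset.sum_congr rfl fun z _ => ?_
      rw [nrot x y z]
    have e4 : 3 * ∑ x, ∑ y, ∑ z, s x ^ 3 * nu G f h k x y z
        = ∑ x, ∑ y, ∑ z, Q x y z * nu G f h k x y z := by
      have : ∀ x y z, Q x y z * nu G f h k x y z = s x ^ 3 * nu G f h k x y z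
          + s y ^ 3 * nu G f h k x y z + s z ^ 3 * nu G f h k x y z := by
        intro x y z
        simp only [hQ]; ring
      simp only [this, Finset.sum_add_distrib]
      rw [e2, e3]
      ring
    set F : V → V → V → ℝ := fun x y z => gd G f x y z * wt h k x y z * Q x y z with hF
    have grot := gd_rot G f hf
    have gsw := gd_sw G f hf
    have wsw : ∀ x y z, wt h k y x z = wt h k x y z := by
      intro x y z
      unfold wt
      rw [hk.symm y x, add_comm (rs k y ^ 2), add_comm (rs k y ^ 3) (rs k x ^ 3)]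
    have e5 : ∑ x, ∑ y, ∑ z, Q x y z * nu G f h k x y z = 3 * ∑ x, ∑ y, ∑ z, F x y z := by
      have : ∀ x y z, Q x y z * nu G f h k x y z = F x y z + F y z x + F x z y := by
        intro x y z
        have g1 := grot x y z
        have g2 : gd G f x z y = gd G f x y z := by
          rw [← grot x z y, gsw y z x, grot x y z] 
        simp only [hF, hQ, nu]
        rw [g1, g2]
        ring
      simp only [this, Finset.sum_add_distrib]
      rw [rot3 F, swp23 F]
      ring
    have e6 : ∀ x y z, F x y z = k x y * (3 * (s x ^ 2 + s y ^ 2)) / (4 * h) * gd G f x y z := by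
      intro x y z
      simp only [hF, hQ, wt, ← hs]
      by_cases hxy : k x y = 0
      · rw [hxy]; simp
      · have h1 : 0 < k x y := lt_of_le_of_ne (hk.nonneg x y) (Ne.symm hxy)
        have h2 : k x y ≤ s x := Finset.single_le_sum (f := fun y => k x y)
          (fun y _ => hk.nonneg x y) (Finset.mem_univ y)
        have h3 : 0 < s x := lt_of_lt_of_le h1 h2
        have h4 : 0 < s x ^ 3 + s y ^ 3 + s z ^ 3 := by
          have a1 := pow_pos h3 3
          have a2 := pow_nonneg (hr y) 3
          have a3 := pow_nonneg (hr z) 3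
          linarith
        field_simp
    set g : V → V → ℝ := fun x y => ∑ z, gd G f x y z with hg
    have gsymm : ∀ x y, g x y = g y x := by
      intro x y
      simp only [hg]
      refine Finset.sum_congr rfl fun z _ => ?_
      rw [gsw y x z]
    have e7 : ∑ x, ∑ y, ∑ z, F x y z
        = ∑ x, ∑ y, k x y * s x ^ 2 * (3 / (2 * h) * g x y) := by
      have a1 : ∑ x, ∑ y, ∑ z, F x y z
          = ∑ x, ∑ y, k x y * s x ^ 2 * (3 / (4 * h) * g x y)
            + ∑ x, ∑ y, k x y * s y ^ 2 * (3 / (4 * h) * g x y) := by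
        rw [← Finset.sum_add_distrib]
        refine Finset.sum_congr rfl fun x _ => ?_
        rw [← Finset.sum_add_distrib]
        refine Finset.sum_congr rfl fun y _ => ?_
        simp only [e6, ← Finset.mul_sum, hg]
        field_simp
      have a2 : ∑ x, ∑ y, k x y * s y ^ 2 * (3 / (4 * h) * g x y)
          = ∑ x, ∑ y, k x y * s x ^ 2 * (3 / (4 * h) * g x y) := by
        rw [Finset.sum_comm]
        refine Finset.sum_congr rfl fun x _ => Finset.sum_congr rfl fun y _ => ?_
        rw [hk.symm y x, gsymm y x]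
      rw [a1, a2, ← Finset.sum_add_distrib]
      refine Finset.sum_congr rfl fun x _ => ?_
      rw [← Finset.sum_add_distrib]
      refine Finset.sum_congr rfl fun y _ => ?_
      field_simp
      ring
    have e8 : ∑ x, s x ^ 3 * rs (am G) x
        = ∑ x, ∑ y, k x y * s x ^ 2 * rs (am G) x := by
      refine Finset.sum_congr rfl fun x _ => ?_
      rw [← Finset.sum_mul, ← Finset.sum_mul]
      have : ∑ y, k x y = s x := rfl
      rw [this]
      ring
    have e9 : ∑ x, ∑ y, k x y * s x ^ 2 * rs (am G) x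
        ≤ ∑ x, ∑ y, k x y * s x ^ 2 * (3 / (2 * h) * g x y) := by
      refine Finset.sum_le_sum fun x _ => Finset.sum_le_sum fun y _ => ?_
      by_cases hxy : k x y = 0
      · rw [hxy]; simp
      · have hadj : G.Adj x y := by
          by_contra hn
          exact hxy (hk.supp x y hn)
        refine mul_le_mul_of_nonneg_left ?_ (mul_nonneg (hk.nonneg x y) (sq_nonneg _))
        have b1 := good_count G f x y hadj
        have b2 := hbad x y hadj
        have b3 := hcn x y hadj
        have b4 : 2 * h * rs (am G) x ≤ 3 * g x y := by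
          have : ((cn G x y).card : ℝ) - B ≤ g x y := by
            simp only [hg]
            linarith
          linarith
        have b5 : 3 / (2 * h) * g x y = (3 * g x y) / (2 * h) := by ring
        rw [b5, le_div_iff₀ (by positivity)]
        linarith
    rw [e8, e1]
    have e10 : ∑ x, ∑ y, ∑ z, s x ^ 3 * nu G f h k x y z = ∑ x, ∑ y, ∑ z, F x y z := by
      linarith
    rw [e10, e7]
    exact e9

end FT
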