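import Pool.Agent.Lib.MP_fe8cb7_co.FT.Stm

set_option autoImplicit false

/-! Piece `[FT var]`: the first order condition. -/

open Finset

namespace FT

open DH

private theorem Fn_add {V : Type} [Fintype V] (f k d : V → V → ℝ) (t : ℝ) :
    Fn f (fun x y => k x y + t * d x y) - Fn f k =
      t * (4 * (∑ x, ∑ y, f x y * d x y + ∑ x, rs k x ^ 3 * rs d x) +
        t * (6 * ∑ x, rs k x ^ 2 * rs d x ^ 2) + t ^ 2 * (4 * ∑ x, rs k x * rs d x ^ 3) +
        t ^ 3 * ∑ x, rs d x ^ 4) := by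
  have e : ∀ x, rs (fun x y => k x y + t * d x y) x = rs k x + t * rs d x := by
    intro x
    unfold rs
    rw [sum_add_distrib, mul_sum]
  unfold Fn
  simp only [e]
  have e1 : ∑ x, ∑ y, f x y * (k x y + t * d x y) =
      ∑ x, ∑ y, f x y * k x y + t * ∑ x, ∑ y, f x y * d x y := by
    rw [mul_sum, ← sum_add_distrib]
    refine sum_congr rfl fun x _ => ?_
    rw [mul_sum, ← sum_add_distrib]
    exact sum_congr rfl fun y _ => by ring
  have e2 : ∑ x, (rs k x + t * rs d x) ^ 4 = ∑ x, rs k x ^ 4 +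
      (4 * t * ∑ x, rs k x ^ 3 * rs d x + 6 * t ^ 2 * ∑ x, rs k x ^ 2 * rs d x ^ 2 +
        4 * t ^ 3 * ∑ x, rs k x * rs d x ^ 3 + t ^ 4 * ∑ x, rs d x ^ 4) := by
    simp only [mul_sum, ← sum_add_distrib]
    exact sum_congr rfl fun x _ => by ring
  rw [e1, e2]
  ring

theorem p_var : S_var := by
  intro V _ _ G 𝓑 f k d hk hmin hd hds hdG hd0
  set L : ℝ := ∑ x, ∑ y, f x y * d x y + ∑ x, rs k x ^ 3 * rs d x with hL
  by_contra hneg
  push Not at hneg
  set q : ℝ → ℝ := fun t => 4 * L + t * (6 * ∑ x, rs k x ^ 2 * rs d x ^ 2) +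
    t ^ 2 * (4 * ∑ x, rs k x * rs d x ^ 3) + t ^ 3 * ∑ x, rs d x ^ 4 with hq
  have hqc : Continuous q := by rw [hq]; fun_prop
  have hq0 : q 0 < 0 := by
    have : q 0 = 4 * L := by rw [hq]; simp
    rw [this]; linarith
  have ev1 : ∀ᶠ t in nhdsWithin (0 : ℝ) (Set.Ioi 0), q t < 0 :=
    nhdsWithin_le_nhds ((hqc.tendsto 0).eventually (gt_mem_nhds hq0))
  have ev2 : ∀ᶠ t in nhdsWithin (0 : ℝ) (Set.Ioi 0), ∀ x y, 0 ≤ k x y + t * d x y := by
    rw [Filter.eventually_all]
    intro x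
    rw [Filter.eventually_all]
    intro y
    rcases eq_or_lt_of_le (hk.nonneg x y) with h | h
    · filter_upwards [self_mem_nhdsWithin] with t ht
      rw [← h, zero_add]
      exact mul_nonneg (le_of_lt ht) (hd0 x y h.symm)
    · apply nhdsWithin_le_nhds
      have hc : Continuous (fun t : ℝ => k x y + t * d x y) := by fun_prop
      have h0 : 0 < k x y + 0 * d x y := by rw [zero_mul, add_zero]; exact h
      filter_upwards [(hc.tendsto 0).eventually (lt_mem_nhds h0)] with t ht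
      exact le_of_lt ht
  have ev3 : ∀ᶠ t in nhdsWithin (0 : ℝ) (Set.Ioi 0), 0 < t := self_mem_nhdsWithin
  obtain ⟨t, ⟨ht1, ht2⟩, ht3⟩ := ((ev1.and ev2).and ev3).exists
  have hcone : Cone G 𝓑 (fun x y => k x y + t * d x y) := by
    refine ⟨?_, ht2, fun x y => ?_, fun x y hxy => ?_⟩
    · have : (fun x y => k x y + t * d x y) = k + t • d := by
        ext x y; simp
      rw [this]
      exact 𝓑.add_mem hk.mem (𝓑.smul_mem t hd)
    · show k x y + t * d x y = k y x + t * d y x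
      rw [hk.symm x y, hds x y]
    · show k x y + t * d x y = 0
      rw [hk.supp x y hxy, hdG x y hxy]; ring
  have h1 := hmin _ hcone
  have h2 := Fn_add f k d t
  have h3 : t * q t < 0 := mul_neg_of_pos_of_neg ht3 ht1
  have h4 : Fn f (fun x y => k x y + t * d x y) - Fn f k = t * q t := h2
  linarith

end FT
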