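import Pool.Agent.Lib.MP_fe8cb7_co.h25.Defs

/-!
# Fractional triangle decompositions at minimum degree 3/4: statements

Owner helper75. Every docstring contains a complete informal proof. `G` is a graph on a finite type,
`𝓑` a space of matrices (balanced matrices in the tripartite case, all matrices in the
non-partite case), `h = 1/2` or `h = 1`.
-/

open Finset

namespace FT

open DH

section defs

variable {V : Type} [Fintype V] [DecidableEq V]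

open Classical in
/-- adjacency matrix -/
noncomputable def am (G : SimpleGraph V) (x y : V) : ℝ := if G.Adj x y then 1 else 0

/-- matrix of the edge `a b` -/
def em (a b x y : V) : ℝ :=
  (if x = a ∧ y = b then 1 else 0) + (if x = b ∧ y = a then 1 else 0)

/-- matrix of the triangle `a b c` -/
def tm (a b c x y : V) : ℝ := em a b x y + em b c x y + em a c x y

/-- row sum -/
def rs (k : V → V → ℝ) (x : V) : ℝ := ∑ y, k x y

/-- `𝓑` contains the adjacency matrix and the matrices of all triangles, and for the nonnegative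
members of `𝓑` living on `G` at most the part `h` of a row lies on the common neighbours of an edge -/
structure Adm (G : SimpleGraph V) (𝓑 : Submodule ℝ (V → V → ℝ)) (h : ℝ) : Prop where
  pos : 0 < h
  am_mem : am G ∈ 𝓑
  tm_mem : ∀ a b c : V, G.Adj a b → G.Adj b c → G.Adj a c → tm a b c ∈ 𝓑
  third : ∀ k ∈ 𝓑, (∀ x y, 0 ≤ k x y) → (∀ x y, k x y = k y x) →
    (∀ x y, ¬ G.Adj x y → k x y = 0) →
    ∀ x z, G.Adj x z → ∑ y ∈ cn G x z, k x y ≤ h * rs k x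

/-- the cone of all nonnegative symmetric matrices in `𝓑` living on `G` -/
structure Cone (G : SimpleGraph V) (𝓑 : Submodule ℝ (V → V → ℝ)) (k : V → V → ℝ) : Prop where
  mem : k ∈ 𝓑
  nonneg : ∀ x y, 0 ≤ k x y
  symm : ∀ x y, k x y = k y x
  supp : ∀ x y, ¬ G.Adj x y → k x y = 0

/-- the functional -/
def Fn (f k : V → V → ℝ) : ℝ := 4 * ∑ x, ∑ y, f x y * k x y + ∑ x, rs k x ^ 4

open Classical in
/-- indicator of the good triangles -/
noncomputable def gd (G : SimpleGraph V) (f : V → V → ℝ) (x y z : V) : ℝ :=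
  if G.Adj x y ∧ G.Adj y z ∧ G.Adj x z ∧ 0 ≤ f x y + f y z + f x z then 1 else 0

/-- weight of the edge `x y` with apex `z` -/
noncomputable def wt (h : ℝ) (k : V → V → ℝ) (x y z : V) : ℝ :=
  k x y * (3 * (rs k x ^ 2 + rs k y ^ 2)) / (4 * h * (rs k x ^ 3 + rs k y ^ 3 + rs k z ^ 3))

/-- weight of the triangle `x y z` -/
noncomputable def nu (G : SimpleGraph V) (f : V → V → ℝ) (h : ℝ) (k : V → V → ℝ) (x y z : V) : ℝ :=
  gd G f x y z * (wt h k x y z + wt h k y z x + wt h k x z y)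

/-- load of the pair `x y` -/
noncomputable def ld (G : SimpleGraph V) (f : V → V → ℝ) (h : ℝ) (k : V → V → ℝ) (x y : V) : ℝ :=
  ∑ z, nu G f h k x y z

end defs

/-- [FT th] the numerical lemma.
PROOF. `P = A^3 + C^3`. If `P = 0` then `A = C = 0`, take `θ = 0`. Otherwise `ψ(t) = 2 t^3/(3 t^2 + 1)` is continuous on
`[0,2]`, `ψ(0) = 0`, `ψ(2) = 16/13 ≥ 1`, so (intermediate value theorem) there is `t ∈ [0,2]` with `2 t^3 P = A^3 (3 t^2 + 1)`. Put `θ = t/2`, `t' = 2 - t`.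
(i) `2 t'^3 P ≥ C^3 (3 t'^2 + 1)`: it says `ψ(t') ≥ C^3/P = 1 - ψ(t)`, and with `t = 1 + s`: `ψ(1+s) + ψ(1-s) - 1 = 3 s^4/(16 - 12 s^2 + 9 s^4) ≥ 0`
(`(3(1+s)^2+1)(3(1-s)^2+1) = 16 - 12 s^2 + 9 s^4 > 0`, `2(1+s)^3(3(1-s)^2+1) + 2(1-s)^3(3(1+s)^2+1) = 16 - 12 s^2 + 12 s^4`).
(ii) if `t > 0`: `3 A b^2 ≤ A^3/t^2 + 2 t b^3` (AM-GM: with `A = t a` it is `3 a b^2 ≤ a^3 + 2 b^3`, i.e. `(a - b)^2 (a + 2 b) ≥ 0`, times `t`), so
`3 A (A^2 + b^2) ≤ A^3 (3 + 1/t^2) + 2 t b^3 = 2 t P + 2 t b^3 = 4 θ (P + b^3)`. If `t = 0` then `A^3 = 0`, `A = 0`, trivial.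
(iii) the same with `C`, `t'`, now with `C^3 (3 + 1/t'^2) ≤ 2 t' P`; `4 (1 - θ) = 2 t'`. -/
def S_th : Prop := ∀ A C : ℝ, 0 ≤ A → 0 ≤ C → ∃ θ : ℝ, 0 ≤ θ ∧ θ ≤ 1 ∧
  (∀ b : ℝ, 0 ≤ b → 3 * A * (A ^ 2 + b ^ 2) ≤ 4 * θ * (A ^ 3 + b ^ 3 + C ^ 3)) ∧
  (∀ b : ℝ, 0 ≤ b → 3 * C * (C ^ 2 + b ^ 2) ≤ 4 * (1 - θ) * (A ^ 3 + b ^ 3 + C ^ 3))

/-- [FT min] the minimum of `Fn` over the cone exists.
PROOF. Let `C ≥ 1`, `|f x y| ≤ C` for all `x, y` (finite). For `k` in the cone `k x y ≤ s x := rs k x`, `s x ≥ 0` and `∑∑ f k ≥ - C ∑ s x`, so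
`Fn f k ≥ ∑ x, (s x ^ 4 - 4 C s x)`. For `s ≥ 0`: `s^4 - 4 C s ≥ -8 C^2` (if `s ≤ 2 C` it is `≥ - 4 C s`; if `s ≥ 2 C ≥ 2` it is `≥ 0`).
Let `R = 4 C (|V| + 1)` (any number with `R^4 - 4 C R > 8 C^2 |V|`). The set `K` of the `k` in the cone with all `k x y ≤ R` is compact: a closed (`𝓑` is closed, finite dimension:
`Submodule.closed_of_finiteDimensional`) subset of the compact box `Set.pi univ (fun _ => Set.pi univ (fun _ => Set.Icc 0 R))`, and `0 ∈ K`; `Fn f` is continuous. Let `k` be a minimiser over `K`. For `k'` in the cone, `k' ∈ K` or some `k' x y > R`, then `s x > R` and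
`Fn f k' ≥ R^4 - 4 C R - 8 C^2 |V| > 0 = Fn f 0 ≥ Fn f k` (`t^4 - 4 C t` is increasing for `t ≥ R ≥ C ≥ 1`). -/
def S_min : Prop := ∀ (V : Type) [Fintype V] [DecidableEq V] (G : SimpleGraph V)
  (𝓑 : Submodule ℝ (V → V → ℝ)) (f : V → V → ℝ),
  ∃ k, Cone G 𝓑 k ∧ ∀ k', Cone G 𝓑 k' → Fn f k ≤ Fn f k'

/-- [FT var] first order condition.
PROOF. Put `L = ∑∑ f d + ∑ (rs k x)^3 rs d x` and suppose `L < 0`. For small `t > 0`: `k + t d` is in the cone (`k x y + t d x y ≥ 0` if `k x y = 0`, as `d x y ≥ 0`;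
if `k x y > 0` then for `t ≤ k x y/(|d x y| + 1)`; finitely many pairs, take the minimum or `Finset.exists_min_image`, or use
`Filter.Eventually` at `𝓝[>] 0`). `Fn f (k + t d) - Fn f k = 4 t L + t^2 (6 ∑ s^2 δ^2 + 4 t ∑ s δ^3 + t^2 ∑ δ^4)`, `s = rs k`, `δ = rs d`, is negative for small `t > 0`. Contradiction. -/
def S_var : Prop := ∀ (V : Type) [Fintype V] [DecidableEq V] (G : SimpleGraph V)
  (𝓑 : Submodule ℝ (V → V → ℝ)) (f k d : V → V → ℝ),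
  Cone G 𝓑 k → (∀ k', Cone G 𝓑 k' → Fn f k ≤ Fn f k') → d ∈ 𝓑 → (∀ x y, d x y = d y x) →
  (∀ x y, ¬ G.Adj x y → d x y = 0) → (∀ x y, k x y = 0 → 0 ≤ d x y) →
  0 ≤ ∑ x, ∑ y, f x y * d x y + ∑ x, rs k x ^ 3 * rs d x

/-- [FT nu] simple facts on `nu` and `ld`.
PROOF. `gd` is invariant under permutations of `x, y, z` (`f` symmetric, `G.Adj` symmetric), `wt h k x y z = wt h k y x z` (`k` symmetric), so `nu` is invariant. All are nonnegative
(`rs k x ≥ 0`, `h > 0`, division by `0` gives `0`). `nu x y z = 0` if `x y z` is not a triangle or `f x y + f y z + f x z < 0`. `ld` symmetric, `ld x y = 0` if `¬ G.Adj x y`. In `𝓑`: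
`6 • ld = ∑ a, ∑ b, ∑ c, nu a b c • tm a b c` (evaluate at `x y`: `∑_{a b c} nu a b c * em a b x y = ∑_c (nu x y c + nu y x c) = 2 ld x y` - for `x = y` both
sides are `0` as `nu x x c = 0` - and the same for `em b c`, `em a c` by the symmetry), each summand is in `𝓑` (`nu a b c = 0` or `a b c` is a triangle). -/
def S_nu : Prop := ∀ (V : Type) [Fintype V] [DecidableEq V] (G : SimpleGraph V)
  (𝓑 : Submodule ℝ (V → V → ℝ)) (h : ℝ) (f k : V → V → ℝ), Adm G 𝓑 h → (∀ x y, f x y = f y x) →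
  Cone G 𝓑 k →
  (∀ x y z, 0 ≤ nu G f h k x y z) ∧
  (∀ x y z, nu G f h k x y z = nu G f h k y x z) ∧
  (∀ x y z, nu G f h k x y z = nu G f h k y z x) ∧
  (∀ x y z, nu G f h k x y z ≠ 0 → 0 ≤ f x y + f y z + f x z) ∧
  (∀ x y, 0 ≤ ld G f h k x y) ∧
  (∀ x y, ld G f h k x y = ld G f h k y x) ∧
  (∀ x y, ¬ G.Adj x y → ld G f h k x y = 0) ∧
  ld G f h k ∈ 𝓑

/-- [FT load] the load of an edge outside of the support of `k` is at most one.
PROOF. `A = rs k x`, `C = rs k z`, `θ` from [FT th]. `ld x z = ∑_y nu x z y` and `nu x z y ≤ 0 + wt z y x + wt x y z` (as `k x z = 0`; `wt h k z y x`: edge `z y`, apex `x`; `gd ≤ 1`), and `nu x z y = 0` unless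
`y ∈ cn G x z`. Let `S y = A^3 + (rs k y)^3 + C^3`. If `k x y > 0` then `A > 0`, `S y > 0` and `wt x y z = k x y (3 (A^2 + b^2))/(4 h S y) ≤ k x y θ/(h A)` ([FT th], `b = rs k y`, multiplied by `A`). So
`∑_{y ∈ cn} wt x y z ≤ θ/(h A) ∑_{y ∈ cn} k x y ≤ θ` by `Adm.third` if `A > 0`; if `A = 0` then all `k x y = 0` and the sum is `0 ≤ θ`. In the same way
`∑_{y ∈ cn} wt z y x ≤ 1 - θ` (`cn G z x = cn G x z`). -/
def S_load : Prop := S_th → ∀ (V : Type) [Fintype V] [DecidableEq V] (G : SimpleGraph V)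
  (𝓑 : Submodule ℝ (V → V → ℝ)) (h : ℝ) (f k : V → V → ℝ), Adm G 𝓑 h → (∀ x y, f x y = f y x) →
  Cone G 𝓑 k → ∀ x z, G.Adj x z → k x z = 0 → ld G f h k x z ≤ 1

/-- [FT val] the value.
PROOF. (1) `3 ∑_{x y} f x y ld x y = ∑_{x y z} nu x y z (f x y + f y z + f x z) ≥ 0` (renaming the variables, `nu` invariant; every term is `≥ 0`).
(2) `∑_x (rs k x)^3 rs ld x = ∑_{x y z} nu x y z s x^3`, `s = rs k`; three times this is `∑_{xyz} nu x y z Q`, `Q = s x^3 + s y^3 + s z^3` (symmetric), and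
`nu = gd (wt x y z + wt y z x + wt x z y)` where `∑ gd wt y z x Q = ∑ gd wt x z y Q = ∑ gd wt x y z Q` by renaming; so `∑_x (rs k x)^3 rs ld x = ∑_{xyz} gd x y z wt x y z Q = ∑_{x y} k x y 3 (s x^2 + s y^2)/(4 h) ∑_z gd x y z`
(if `k x y ≠ 0` then `s x > 0`, so `Q > 0`), by symmetry `= (3/(2h)) ∑_{x y} k x y s x^2 g x y`, `g x y = ∑_z gd x y z`. If `k x y ≠ 0` then `x y` is an edge and
`g x y ≥ |cn G x y| - B` (the good `z` are the members of `cn` which are not bad), so `(3/(2h)) g x y ≥ rs (am G) x`. Hence the sum is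
`≥ ∑_{x y} k x y s x^2 rs (am G) x = ∑_x s x^3 rs (am G) x`. -/
def S_val : Prop := S_nu → ∀ (V : Type) [Fintype V] [DecidableEq V] (G : SimpleGraph V)
  (𝓑 : Submodule ℝ (V → V → ℝ)) (h B : ℝ) (f k : V → V → ℝ), Adm G 𝓑 h →
  (∀ x y, f x y = f y x) → Cone G 𝓑 k →
  (∀ x y, G.Adj x y → 2 * h * rs (am G) x ≤ 3 * (((cn G x y).card : ℝ) - B)) →
  (∀ x y, G.Adj x y →
    (((cn G x y).filter (fun z => f x y + f y z + f x z < 0)).card : ℝ) ≤ B) →
  0 ≤ ∑ x, ∑ y, f x y * ld G f h k x y ∧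
  ∑ x, rs k x ^ 3 * rs (am G) x ≤ ∑ x, rs k x ^ 3 * rs (ld G f h k) x

/-- [FT P] the main inequality.
PROOF. `k` from [FT min]; `d x y = am G x y - ld x y` is in `𝓑`, symmetric, `0` outside of `G`, and `d x y ≥ 0` if `k x y = 0` (edge: [FT load]; non edge: `0`). [FT var]:
`0 ≤ ∑∑ f am - ∑∑ f ld + ∑ s^3 rs am - ∑ s^3 rs ld` and [FT val] give `0 ≤ ∑∑ f am`. -/
def S_P : Prop := S_th → S_min → S_var → S_nu → S_load → S_val →
  ∀ (V : Type) [Fintype V] [DecidableEq V] (G : SimpleGraph V)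
  (𝓑 : Submodule ℝ (V → V → ℝ)) (h B : ℝ) (f : V → V → ℝ), Adm G 𝓑 h →
  (∀ x y, f x y = f y x) →
  (∀ x y, G.Adj x y → 2 * h * rs (am G) x ≤ 3 * (((cn G x y).card : ℝ) - B)) →
  (∀ x y, G.Adj x y →
    (((cn G x y).filter (fun z => f x y + f y z + f x z < 0)).card : ℝ) ≤ B) →
  0 ≤ ∑ x, ∑ y, f x y * am G x y

/-- [FT LS] least squares.
PROOF. `W` = a minimiser of `Obj W = ∑ x, ∑ y, am G x y (1 - ∑_{z ∈ cn G x y} W {x,y,z})^2` over the compact box `Set.pi univ (fun _ => Set.Icc 0 K)` in `Finset V → ℝ`; `f x y = ∑_{z ∈ cn G x y} W {x,y,z} - 1` if `G.Adj x y`, else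
`0` (symmetric). For a triangle `T = {x,y,z}` adding `ε` to `W T` adds `ε` to `f` at the six ordered pairs of `T` and changes nothing else, so `Obj` changes by
`4 ε f(T) + 6 ε^2`, `f(T) = f x y + f y z + f x z`. So: `W T < K` implies `f(T) ≥ 0`, `W T > 0` implies `f(T) ≤ 0`.
(a) let `x y` be an edge; if no `z ∈ cn` is bad (`f x y + f y z + f x z < 0`) the card is `0`. Otherwise, as `f ≥ -1` on edges (`W ≥ 0`), `f x y < 2`, the load of `x y` is `< 3`, and it is `≥ K` times the number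
of bad `z`, since `W = K` there (different `z` give different terms of the sum).
(b) `∑_{x,y} am f (1 + f) = ∑_{x,y} am f load = ∑_{x y z, triangle} f x y W{x,y,z} = (1/3) ∑_{xyz triangle} W{x,y,z} f(T) ≤ 0`. -/
def S_LS : Prop := ∀ (V : Type) [Fintype V] [DecidableEq V] (G : SimpleGraph V) (K : ℝ), 0 < K →
  ∃ (W : Finset V → ℝ) (f : V → V → ℝ), (∀ t, 0 ≤ W t) ∧ (∀ t, W t ≤ K) ∧
    (∀ x y, f x y = f y x) ∧
    (∀ x y, G.Adj x y → ∑ z ∈ cn G x y, W {x, y, z} = 1 + f x y) ∧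
    (∀ x y, G.Adj x y →
      (((cn G x y).filter (fun z => f x y + f y z + f x z < 0)).card : ℝ) * K ≤ 3) ∧
    ∑ x, ∑ y, f x y * am G x y ≤ - ∑ x, ∑ y, f x y ^ 2 * am G x y

/-- [FT fin] the abstract theorem.
PROOF. [FT LS], then [FT P] with this `f` (bad number `n` with `n K ≤ 3`, so `n ≤ B`): `0 ≤ ∑∑ f am ≤ - ∑∑ f^2 am`, so `f = 0` on all edges. -/
def S_fin : Prop := S_th → S_min → S_var → S_nu → S_load → S_val → S_P → S_LS →
  ∀ (V : Type) [Fintype V] [DecidableEq V] (G : SimpleGraph V)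
  (𝓑 : Submodule ℝ (V → V → ℝ)) (h B K : ℝ), Adm G 𝓑 h → 0 < K →
  (∀ n : ℕ, (n : ℝ) * K ≤ 3 → (n : ℝ) ≤ B) →
  (∀ x y, G.Adj x y → 2 * h * rs (am G) x ≤ 3 * (((cn G x y).card : ℝ) - B)) →
  ∃ W : Finset V → ℝ, (∀ t, 0 ≤ W t) ∧ (∀ t, W t ≤ K) ∧
    ∀ x y, G.Adj x y → ∑ z ∈ cn G x y, W {x, y, z} = 1

/-- conclusion of `S_fin` -/
def Fin' : Prop :=
  ∀ (V : Type) [Fintype V] [DecidableEq V] (G : SimpleGraph V)
  (𝓑 : Submodule ℝ (V → V → ℝ)) (h B K : ℝ), Adm G 𝓑 h → 0 < K →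
  (∀ n : ℕ, (n : ℝ) * K ≤ 3 → (n : ℝ) ≤ B) →
  (∀ x y, G.Adj x y → 2 * h * rs (am G) x ≤ 3 * (((cn G x y).card : ℝ) - B)) →
  ∃ W : Finset V → ℝ, (∀ t, 0 ≤ W t) ∧ (∀ t, W t ≤ K) ∧
    ∀ x y, G.Adj x y → ∑ z ∈ cn G x y, W {x, y, z} = 1

/-- [FT tri] the tripartite theorem with bounded weights, `c < 1/4`.
PROOF. `𝓑` = the matrices `k` with `∑_{π y = π v + 1} k v y = ∑_{π y = π v - 1} k v y` for all `v` (a submodule), `h = 1/2`. `am G ∈ 𝓑` is `Bal`. `tm a b c ∈ 𝓑` for a triangle: `a, b, c` lie in the three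
different parts; at `v ∈ {a,b,c}` both sums are `1` (the other two vertices), at other `v` both are `0` (WLOG by cases on the parts). `third`: all `y ∈ cn G x z` lie in the third part, which is `π x + 1` or `π x - 1`, so `∑_{y ∈ cn} k x y ≤` one of the two equal
sums, whose sum is `rs k x` (`k x y = 0` if `π y = π x`). With `C0 = 9/(1 - 4c)` (`c < 1/4`; if `c < 0` the hypothesis `(1 - c) N ≤ dg` is
contradictory as `dg ≤ N`), `K = C0/N`, `B = 3 N/C0 = (1-4c) N/3`. `rs (am G) x = 2 dg x` and `2 h rs = 2 dg x ≤` ? : let `a`, `b` be the degrees of `x`, `y` into one part, `a, b ≥ (1-c) N`;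
`|cn G x y| ≥ a + b - N` (both neighbourhoods in the third part, of size `N`); `3 (a + b - N - B) ≥ 2 a` iff `a + 3 b ≥ 3 N + 3 B`, and `a + 3 b ≥ 4 (1-c) N = 3 N + (1-4c) N = 3 N + 3 B`. -/
def S_tri : Prop := Fin' → ∀ c : ℝ, c < 1 / 4 → Frac c (9 / (1 - 4 * c))

/-- [FT tri0] the tripartite theorem at exactly `1/4` (weights at most `1` automatically).
PROOF. As [FT tri] with `K = 4`, `B = 0` (`n * 4 ≤ 3` implies `n = 0`): `a + 3 b ≥ 3 N`. -/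
def S_tri0 : Prop := Fin' → ∀ (V : Type) [Fintype V] [DecidableEq V] (π : V → ZMod 3)
    (G : SimpleGraph V) (N : ℕ), 0 < N → Eq3 π univ N → Tri π G → Bal π G univ →
    (∀ v : V, ∀ i : ZMod 3, i ≠ π v → 3 * N ≤ 4 * dg G v (pt π univ i)) →
    ∃ W : Finset V → ℝ, (∀ t, 0 ≤ W t) ∧ ∀ x y : V, G.Adj x y → ∑ z ∈ cn G x y, W {x, y, z} = 1

/-- [FT non] the non-partite theorem: minimum degree at least `3/4` of the number of vertices.
PROOF. `𝓑 = ⊤`, `h = 1`, `K = 4`, `B = 0`. `third`: `∑_{y ∈ cn} k x y ≤ ∑_y k x y`. `rs (am G) x = dg G x univ =: a`, `|cn G x y| ≥ a + b - n`, `b = dg G y univ`, `n = |V|`; `3 (a + b - n) ≥ 2 a` iff `a + 3 b ≥ 3 n`. -/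
def S_non : Prop := Fin' → ∀ (V : Type) [Fintype V] [DecidableEq V] (G : SimpleGraph V),
    (∀ v : V, 3 * Fintype.card V ≤ 4 * dg G v univ) →
    ∃ W : Finset V → ℝ, (∀ t, 0 ≤ W t) ∧ ∀ x y : V, G.Adj x y → ∑ z ∈ cn G x y, W {x, y, z} = 1

end FT
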